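import Mathlib

/-!
The secant generator of a nondegenerate polynomial curve: monotonicity, gradients, polynomials of
low degree, affine forms.
-/

namespace Pool.Agent.H626R2.Clu

open MvPolynomial

section

variable {F : Type*} [Field F] {σ : Type*} [Fintype σ]

/-- The ring of seeds: `inl t` is `y_t` and `inr t` is `z_t`. -/
abbrev SR (F : Type*) [Field F] := MvPolynomial (ℕ ⊕ ℕ) F

/-- the value of the coordinate `i` on the generator with `T` seed pairs -/
noncomputable def gp (b : σ → F) (L : σ → Polynomial F) (T : ℕ) (i : σ) : SR F :=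
  C (b i) + ∑ t ∈ Finset.range T, X (Sum.inl t) * Polynomial.aeval (X (Sum.inr t)) (L i)

/-- substitution of the generator -/
noncomputable def ge (b : σ → F) (L : σ → Polynomial F) (T : ℕ) : MvPolynomial σ F →ₐ[F] SR F :=
  aeval (gp b L T)

variable (b : σ → F) (L : σ → Polynomial F)

omit [Fintype σ] in
theorem ge_X (T : ℕ) (i : σ) : ge b L T (X i) = gp b L T i := by
  unfold ge; rw [aeval_X]

omit [Fintype σ] in
theorem ge_C (T : ℕ) (r : F) : ge b L T (C r) = C r := by
  simp only [ge, MvPolynomial.algHom_C, MvPolynomial.algebraMap_eq]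

/-- kill the last `y` and specialise the last `z` -/
noncomputable def sp (F : Type*) [Field F] (j : ℕ) (ζ : F) : SR F →ₐ[F] SR F :=
  aeval fun v => if v = Sum.inl j then 0 else if v = Sum.inr j then C ζ else X v

theorem sp_X_of_ne (j : ℕ) (ζ : F) (v : ℕ ⊕ ℕ) (h1 : v ≠ Sum.inl j)
    (h2 : v ≠ Sum.inr j) : sp F j ζ (X v) = X v := by
  unfold sp
  rw [aeval_X, if_neg h1, if_neg h2]

theorem sp_y (j : ℕ) (ζ : F) : sp F j ζ (X (Sum.inl j)) = 0 := by
  unfold sp
  rw [aeval_X, if_pos rfl]

theorem sp_z (j : ℕ) (ζ : F) : sp F j ζ (X (Sum.inr j)) = C ζ := by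
  unfold sp
  rw [aeval_X, if_neg (by simp), if_pos rfl]

theorem sp_aeval (j : ℕ) (ζ : F) (p : Polynomial F) :
    sp F j ζ (Polynomial.aeval (X (Sum.inr j)) p) = C (p.eval ζ) := by
  rw [← Polynomial.aeval_algHom_apply, sp_z]
  have : (C ζ : SR F) = algebraMap F (SR F) ζ := rfl
  rw [this, Polynomial.aeval_algebraMap_apply]
  simp [MvPolynomial.algebraMap_eq]

omit [Fintype σ] in
theorem sp_gp (j : ℕ) (ζ : F) (i : σ) : sp F j ζ (gp b L (j + 1) i) = gp b L j i := by
  unfold gp
  rw [map_add, map_sum, Finset.sum_range_succ, map_mul, sp_y, zero_mul, add_zero]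
  congr 1
  · exact (sp F j ζ).commutes (b i)
  · apply Finset.sum_congr rfl
    intro t ht
    have htj : t ≠ j := (Finset.mem_range.1 ht).ne
    rw [map_mul, sp_X_of_ne j ζ _ (by simpa using htj) (by simp),
      ← Polynomial.aeval_algHom_apply, sp_X_of_ne j ζ _ (by simp) (by simpa using htj)]

omit [Fintype σ] in
theorem sp_ge (j : ℕ) (ζ : F) (Q : MvPolynomial σ F) :
    sp F j ζ (ge b L (j + 1) Q) = ge b L j Q := by
  have h : (sp F j ζ).comp (ge b L (j + 1)) = ge b L j := by
    apply MvPolynomial.algHom_ext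
    intro i
    rw [AlgHom.comp_apply, ge_X, ge_X, sp_gp]
  rw [← h, AlgHom.comp_apply]

omit [Fintype σ] in
theorem ge_mono {j j' : ℕ} (hj : j ≤ j') {Q : MvPolynomial σ F}
    (h : ge b L j' Q = 0) : ge b L j Q = 0 := by
  induction j', hj using Nat.le_induction with
  | base => exact h
  | succ m _ ih => exact ih (by rw [← sp_ge b L m 0, h, map_zero])

/-- a chain rule for algebra maps and derivations -/
theorem chain_rule {B : Type*} [CommRing B] [Algebra F B] (φ : MvPolynomial σ F →ₐ[F] B)
    (D : Derivation F B B) (Q : MvPolynomial σ F) :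
    D (φ Q) = ∑ i, φ (pderiv i Q) * D (φ (X i)) := by
  classical
  induction Q using MvPolynomial.induction_on with
  | C r =>
    have h : φ (C r) = algebraMap F B r := φ.commutes r
    rw [h, D.map_algebraMap]
    simp
  | add p q hp hq =>
    rw [map_add, map_add, hp, hq, ← Finset.sum_add_distrib]
    apply Finset.sum_congr rfl
    intro i _
    rw [map_add, map_add, add_mul]
  | mul_X p k hp =>
    rw [map_mul, Derivation.leibniz, hp, smul_eq_mul, smul_eq_mul, Finset.mul_sum]
    have h1 : ∀ i, φ (pderiv i (p * X k)) * D (φ (X i)) =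
        φ (X k) * (φ (pderiv i p) * D (φ (X i))) +
          (if i = k then φ p * D (φ (X k)) else 0) := by
      intro i
      rw [pderiv_mul, map_add, map_mul, map_mul, pderiv_X]
      by_cases hik : i = k
      · subst hik
        rw [if_pos rfl]
        simp
        ring
      · rw [if_neg hik, Pi.single_eq_of_ne' hik, map_zero]
        ring
    simp only [h1]
    rw [Finset.sum_add_distrib, Finset.sum_ite_eq' Finset.univ k, if_pos (Finset.mem_univ k)]
    ring

theorem pderiv_aeval_z (v : ℕ ⊕ ℕ) (t : ℕ) (hv : v ≠ Sum.inr t)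
    (p : Polynomial F) : pderiv v (Polynomial.aeval (X (Sum.inr t) : SR F) p) = 0 := by
  have h := (pderiv (R := F) v : Derivation F (SR F) (SR F)).map_aeval p (X (Sum.inr t))
  rw [h, pderiv_X_of_ne hv.symm, smul_zero]

omit [Fintype σ] in
theorem pderiv_y_gp (j : ℕ) (i : σ) {s : ℕ} (hs : s < j) :
    pderiv (Sum.inl s) (gp b L j i) = Polynomial.aeval (X (Sum.inr s) : SR F) (L i) := by
  unfold gp
  rw [map_add, pderiv_C, zero_add, map_sum, Finset.sum_eq_single s]
  · rw [pderiv_mul, pderiv_aeval_z _ _ (by simp), pderiv_X_self]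
    ring
  · intro t _ hts
    rw [pderiv_mul, pderiv_aeval_z _ _ (by simp), pderiv_X_of_ne (by simpa using hts)]
    ring
  · intro h
    exact absurd (Finset.mem_range.2 hs) h

/-- One seed pair buys the whole gradient. -/
theorem ge_grad [CharZero F] (hL : LinearIndependent F L) (j : ℕ)
    {Q : MvPolynomial σ F} (h : ge b L (j + 1) Q = 0) (i : σ) :
    ge b L j (pderiv i Q) = 0 := by
  classical
  have key : ∀ ζ : F, ∑ k, C ((L k).eval ζ) * ge b L j (pderiv k Q) = 0 := by
    intro ζ
    have h1 := chain_rule (ge b L (j + 1)) (pderiv (Sum.inl j)) Q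
    rw [h, map_zero] at h1
    have h2 := congrArg (sp F j ζ) h1
    rw [map_zero, map_sum] at h2
    rw [h2]
    apply Finset.sum_congr rfl
    intro k _
    rw [map_mul, sp_ge, mul_comm, ge_X, pderiv_y_gp b L _ _ (Nat.lt_succ_self j), sp_aeval]
  ext m
  rw [coeff_zero]
  set c : σ → F := fun k => coeff m (ge b L j (pderiv k Q)) with hc
  have hrel : ∑ k, c k • L k = 0 := by
    apply Polynomial.funext
    intro ζ
    have h1 := congrArg (coeff m) (key ζ)
    rw [coeff_sum, coeff_zero] at h1
    rw [Polynomial.eval_finsetSum, Polynomial.eval_zero, ← h1]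
    apply Finset.sum_congr rfl
    intro k _
    rw [Polynomial.eval_smul, coeff_C_mul, smul_eq_mul, hc]
    ring
  exact Fintype.linearIndependent_iff.1 hL c hrel i

/-- a polynomial with zero gradient is constant -/
theorem eq_C_of_grad [CharZero F] {Q : MvPolynomial σ F} (h : ∀ i, pderiv i Q = 0) :
    ∃ r, Q = C r := by
  classical
  refine ⟨coeff 0 Q, ?_⟩
  ext m
  rw [coeff_C]
  split_ifs with hm
  · rw [← hm]
  · obtain ⟨i, hi⟩ : ∃ i, m i ≠ 0 := by
      by_contra hcon
      push Not at hcon
      exact hm (Finsupp.ext hcon).symm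
    have h1 := congrArg (coeff (m - Finsupp.single i 1)) (h i)
    rw [coeff_zero] at h1
    rw [MvPolynomial.coeff_pderiv] at h1
    have h2 : m - Finsupp.single i 1 + Finsupp.single i 1 = m :=
      tsub_add_cancel_of_le (by
        rw [Finsupp.single_le_iff]
        omega)
    rw [h2] at h1
    rcases mul_eq_zero.1 h1 with h | h
    · exact h
    · exfalso
      have h3 : (((m - Finsupp.single i 1 : σ →₀ ℕ) i : ℕ) : F) + 1 = ((m i : ℕ) : F) := by
        have : (m - Finsupp.single i 1 : σ →₀ ℕ) i + 1 = m i := by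
          rw [Finsupp.tsub_apply, Finsupp.single_eq_same]
          omega
        exact_mod_cast this
      rw [h3] at h
      exact hi (by exact_mod_cast h)

omit [Fintype σ] in
theorem totalDegree_pderiv_le (i : σ) (Q : MvPolynomial σ F) :
    (pderiv i Q).totalDegree ≤ Q.totalDegree - 1 := by
  classical
  apply Finset.sup_le
  intro m hm
  rw [mem_support_iff, MvPolynomial.coeff_pderiv] at hm
  have h1 : coeff (m + Finsupp.single i 1) Q ≠ 0 := left_ne_zero_of_mul hm
  have h2 := le_totalDegree (mem_support_iff.2 h1)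
  rw [Finsupp.sum_add_index' (by simp) (by simp), Finsupp.sum_single_index rfl] at h2
  omega

/-- Polynomials of low degree do not vanish on the generator. -/
theorem ge_low [CharZero F] (hL : LinearIndependent F L) (d : ℕ) :
    ∀ Q : MvPolynomial σ F, Q.totalDegree ≤ d → ge b L d Q = 0 → Q = 0 := by
  induction d with
  | zero =>
    intro Q hQ h
    rw [Nat.le_zero, totalDegree_eq_zero_iff_eq_C] at hQ
    rw [hQ, ge_C] at h
    rw [hQ, C_eq_zero.1 h, C_0]
  | succ d ih =>
    intro Q hQ h
    have hg : ∀ i, pderiv i Q = 0 := fun i => ih _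
      ((totalDegree_pderiv_le i Q).trans (by omega)) (ge_grad b L hL d h i)
    obtain ⟨r, hr⟩ := eq_C_of_grad hg
    rw [hr, ge_C] at h
    rw [hr, C_eq_zero.1 h, C_0]

theorem ge_low' [CharZero F] (hL : LinearIndependent F L) {d T : ℕ} (hdT : d ≤ T)
    {Q : MvPolynomial σ F} (hQ : Q.totalDegree ≤ d) (h : ge b L T Q = 0) : Q = 0 :=
  ge_low b L hL d Q hQ (ge_mono b L hdT h)

end

end Pool.Agent.H626R2.Clu
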