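import Mathlib
import Pool.Agent.H626R2.Clu.Gen

/-!
Expansion of polynomials along a hyperplane and in the direction of a point of the curve.
-/

namespace Pool.Agent.H626R2.Clu

open MvPolynomial

section

variable {F : Type*} [Field F] {σ : Type*} [Fintype σ]

/-- the affine form with constant term `β` and coefficients `a` -/
noncomputable def af (β : F) (a : σ → F) : MvPolynomial σ F := C β + ∑ i, C (a i) * X i

theorem totalDegree_af_le (β : F) (a : σ → F) : (af β a).totalDegree ≤ 1 := by
  unfold af
  refine (totalDegree_add _ _).trans (max_le (by simp) ?_)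
  apply totalDegree_finsetSum_le
  intro i _
  refine (totalDegree_mul _ _).trans ?_
  rw [totalDegree_X, totalDegree_C, zero_add]

theorem af_sub (β β' c : F) (a a' : σ → F) :
    af β a - C c * af β' a' = af (β - c * β') (fun i => a i - c * a' i) := by
  unfold af
  simp only [mul_add, Finset.mul_sum, map_sub, map_mul, sub_mul, Finset.sum_sub_distrib]
  have : ∀ i, (C c : MvPolynomial σ F) * (C (a' i) * X i) = C c * C (a' i) * X i := fun i => by
    ring
  simp only [this]
  ring

/-- the expansion in the direction `v` along the hyperplane `q = 0` -/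
noncomputable def Ph (q : MvPolynomial σ F) (v : σ → F) :
    MvPolynomial σ F →ₐ[F] Polynomial (MvPolynomial σ F) :=
  aeval fun i => Polynomial.C (X i) + (Polynomial.X - Polynomial.C q) * Polynomial.C (C (v i))

omit [Fintype σ] in
theorem Ph_X (q : MvPolynomial σ F) (v : σ → F) (i : σ) : Ph q v (X i) =
    Polynomial.C (X i) + (Polynomial.X - Polynomial.C q) * Polynomial.C (C (v i)) := by
  unfold Ph; rw [aeval_X]

omit [Fintype σ] in
theorem Ph_C (q : MvPolynomial σ F) (v : σ → F) (r : F) : Ph q v (C r) =
    Polynomial.C (C r) := by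
  have h : Ph q v (C r) = algebraMap F _ r := (Ph q v).commutes r
  rw [h]
  rfl

theorem Ph_af (q : MvPolynomial σ F) (v : σ → F) (β : F) (a : σ → F) :
    Ph q v (af β a) = Polynomial.C (af β a - C (∑ i, a i * v i) * q) +
      Polynomial.X * Polynomial.C (C (∑ i, a i * v i)) := by
  have h1 : Ph q v (af β a) = Polynomial.C (C β) + ∑ i, Polynomial.C (C (a i)) *
      (Polynomial.C (X i) + (Polynomial.X - Polynomial.C q) * Polynomial.C (C (v i))) := by
    unfold af
    simp only [map_add, map_sum, map_mul, Ph_X, Ph_C]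
  rw [h1]
  unfold af
  simp only [map_add, map_sub, map_sum, map_mul, Finset.sum_mul, Finset.mul_sum]
  have h2 : ∀ i, (Polynomial.C (C (a i)) : Polynomial (MvPolynomial σ F)) *
      (Polynomial.C (X i) + (Polynomial.X - Polynomial.C q) * Polynomial.C (C (v i))) =
      Polynomial.C (C (a i)) * Polynomial.C (X i) -
      Polynomial.C (C (a i)) * Polynomial.C (C (v i)) * Polynomial.C q +
      Polynomial.X * (Polynomial.C (C (a i)) * Polynomial.C (C (v i))) := fun i => by ring
  simp only [h2, Finset.sum_add_distrib, Finset.sum_sub_distrib]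
  ring

omit [Fintype σ] in
theorem Ph_eval (q : MvPolynomial σ F) (v : σ → F) (f : MvPolynomial σ F) :
    (Ph q v f).eval q = f := by
  induction f using MvPolynomial.induction_on with
  | C r => rw [Ph_C, Polynomial.eval_C]
  | add p q' hp hq => rw [map_add, Polynomial.eval_add, hp, hq]
  | mul_X p i hp =>
    rw [map_mul, Polynomial.eval_mul, hp, Ph_X]
    simp

omit [Fintype σ] in
/-- total degrees of the coefficients -/
theorem totalDegree_coeff_Ph {q : MvPolynomial σ F} (hq : q.totalDegree ≤ 1) (v : σ → F)
    (P : MvPolynomial σ F) (k : ℕ) :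
    ((Ph q v P).coeff k).totalDegree ≤ P.totalDegree := by
  classical
  -- products
  have hmul : ∀ (p p' : Polynomial (MvPolynomial σ F)) (d d' : ℕ),
      (∀ k, (p.coeff k).totalDegree ≤ d) → (∀ k, (p'.coeff k).totalDegree ≤ d') →
      ∀ k, ((p * p').coeff k).totalDegree ≤ d + d' := by
    intro p p' d d' hp hp' k
    rw [Polynomial.coeff_mul]
    apply totalDegree_finsetSum_le
    intro x _
    exact (totalDegree_mul _ _).trans (Nat.add_le_add (hp _) (hp' _))
  have hX : ∀ i k, ((Ph q v (X i)).coeff k).totalDegree ≤ 1 := by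
    intro i k
    rw [Ph_X]
    have h1 : Polynomial.C (X i) + (Polynomial.X - Polynomial.C q) * Polynomial.C (C (v i)) =
        Polynomial.C (X i - q * C (v i)) + Polynomial.X * Polynomial.C (C (v i)) := by
      rw [map_sub, map_mul]; ring
    rw [h1, Polynomial.coeff_add]
    refine (totalDegree_add _ _).trans (max_le ?_ ?_)
    · rw [Polynomial.coeff_C]
      split_ifs
      · refine (totalDegree_sub _ _).trans (max_le (by rw [totalDegree_X]) ?_)
        refine (totalDegree_mul _ _).trans ?_
        rw [totalDegree_C, add_zero]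
        exact hq
      · simp
    · rcases k with _ | k
      · rw [Polynomial.mul_coeff_zero, Polynomial.coeff_X_zero, zero_mul]
        simp
      · rw [Polynomial.coeff_X_mul, Polynomial.coeff_C]
        split_ifs <;> simp
  have hpow : ∀ i n k, ((Ph q v (X i) ^ n).coeff k).totalDegree ≤ n := by
    intro i n
    induction n with
    | zero =>
      intro k
      rw [pow_zero]
      have : (1 : Polynomial (MvPolynomial σ F)) = Polynomial.C 1 := rfl
      rw [this, Polynomial.coeff_C]
      split_ifs <;> simp
    | succ n ihn =>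
      intro k
      rw [pow_succ]
      exact hmul _ _ _ _ ihn (hX i) k
  have hmon : ∀ (m : σ →₀ ℕ) k, ((Ph q v (monomial m 1)).coeff k).totalDegree ≤
      m.sum fun _ e => e := by
    intro m
    induction m using Finsupp.induction with
    | zero =>
      intro k
      have : (monomial (0 : σ →₀ ℕ) (1 : F)) = C 1 := rfl
      rw [this, Ph_C, Polynomial.coeff_C]
      split_ifs <;> simp
    | single_add i n m hi _ ih =>
      intro k
      have h1 : (monomial (Finsupp.single i n + m) (1 : F)) = X i ^ n * monomial m 1 := by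
        rw [X_pow_eq_monomial, monomial_mul, one_mul]
      rw [h1, map_mul, map_pow, Finsupp.sum_add_index' (by simp) (by simp),
        Finsupp.sum_single_index rfl]
      exact hmul _ _ _ _ (hpow i n) ih k
  have h2 : Ph q v P = ∑ m ∈ P.support, Polynomial.C (C (coeff m P)) * Ph q v (monomial m 1) := by
    conv_lhs => rw [P.as_sum, map_sum]
    apply Finset.sum_congr rfl
    intro m _
    have : monomial m (coeff m P) = C (coeff m P) * monomial m 1 := by
      rw [C_mul_monomial, mul_one]
    rw [this, map_mul, Ph_C]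
  rw [h2, Polynomial.finsetSum_coeff]
  apply totalDegree_finsetSum_le
  intro m hm
  rw [Polynomial.coeff_C_mul]
  refine (totalDegree_mul _ _).trans ?_
  rw [totalDegree_C, zero_add]
  exact (hmon m k).trans (le_totalDegree hm)

/-- vanishing on the generator passes to the coefficients of the expansion -/
theorem ge_coeff_Ph (b : σ → F) (L : σ → Polynomial F) (T : ℕ) (β : F) (a : σ → F) (ζ : F)
    {f : MvPolynomial σ F} (h : ge b L (T + 1) f = 0) (k : ℕ) :
    ge b L T ((Ph (af β a) (fun i => (∑ i, a i * (L i).eval ζ)⁻¹ * (L i).eval ζ) f).coeff k) =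
      0 := by
  classical
  set κ := ∑ i, a i * (L i).eval ζ with hκ'
  set q := af β a with hq
  let ψ : SR F →ₐ[F] Polynomial (SR F) := aeval (Sum.elim
    (fun t => if t = T then (Polynomial.X - Polynomial.C (ge b L T q)) * Polynomial.C (C κ⁻¹)
      else Polynomial.C (X (Sum.inl t)))
    (fun t => if t = T then Polynomial.C (C ζ) else Polynomial.C (X (Sum.inr t))))
  have e1 : ψ (X (Sum.inl T)) =
      (Polynomial.X - Polynomial.C (ge b L T q)) * Polynomial.C (C κ⁻¹) := by
    simp [ψ]
  have e2 : ∀ t, t ≠ T → ψ (X (Sum.inl t)) = Polynomial.C (X (Sum.inl t)) := by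
    intro t ht; simp [ψ, ht]
  have e3 : ψ (X (Sum.inr T)) = Polynomial.C (C ζ) := by simp [ψ]
  have e4 : ∀ t, t ≠ T → ψ (X (Sum.inr t)) = Polynomial.C (X (Sum.inr t)) := by
    intro t ht; simp [ψ, ht]
  have e5 : ∀ c, ψ (C c) = Polynomial.C (C c) := fun c => ψ.commutes c
  clear_value ψ
  have haev : ∀ (t : ℕ) (p : Polynomial F), t ≠ T →
      ψ (Polynomial.aeval (X (Sum.inr t)) p) =
        Polynomial.C (Polynomial.aeval (X (Sum.inr t)) p) := by
    intro t p ht
    rw [← Polynomial.aeval_algHom_apply, e4 t ht]
    have h1 : (Polynomial.C (X (Sum.inr t)) : Polynomial (SR F)) =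
      (Polynomial.CAlgHom : SR F →ₐ[F] Polynomial (SR F)) (X (Sum.inr t)) := rfl
    rw [h1, Polynomial.aeval_algHom_apply]
    rfl
  have haevT : ∀ (p : Polynomial F), ψ (Polynomial.aeval (X (Sum.inr T)) p) =
        Polynomial.C (C (p.eval ζ)) := by
    intro p
    rw [← Polynomial.aeval_algHom_apply, e3]
    have h1 : (Polynomial.C (C ζ) : Polynomial (SR F)) = algebraMap F _ ζ := rfl
    rw [h1, Polynomial.aeval_algebraMap_apply]
    simp
  have hgp : ∀ i, ψ (gp b L (T + 1) i) = Polynomial.C (gp b L T i) +
      (Polynomial.X - Polynomial.C (ge b L T q)) * Polynomial.C (C (κ⁻¹ * (L i).eval ζ)) := by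
    intro i
    have hs : ∑ t ∈ Finset.range T, ψ (X (Sum.inl t) * Polynomial.aeval (X (Sum.inr t)) (L i)) =
        ∑ t ∈ Finset.range T, Polynomial.C (X (Sum.inl t) *
          Polynomial.aeval (X (Sum.inr t)) (L i)) := by
      apply Finset.sum_congr rfl
      intro t ht
      have htj : t ≠ T := (Finset.mem_range.1 ht).ne
      rw [map_mul, e2 t htj, haev t _ htj, Polynomial.C_mul]
    have hl : ψ (gp b L (T + 1) i) = Polynomial.C (C (b i)) +
        (∑ t ∈ Finset.range T, Polynomial.C (X (Sum.inl t) *
          Polynomial.aeval (X (Sum.inr t)) (L i)) +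
        (Polynomial.X - Polynomial.C (ge b L T q)) * Polynomial.C (C κ⁻¹) *
          Polynomial.C (C ((L i).eval ζ))) := by
      unfold gp
      rw [map_add, map_sum, Finset.sum_range_succ, map_mul, e1, haevT, e5, hs]
    have hr : Polynomial.C (gp b L T i) = Polynomial.C (C (b i)) +
        ∑ t ∈ Finset.range T, Polynomial.C (X (Sum.inl t) *
          Polynomial.aeval (X (Sum.inr t)) (L i)) := by
      unfold gp
      rw [Polynomial.C_add, map_sum]
    rw [hl, hr, C_mul, Polynomial.C_mul]
    ring
  have hcomp : ψ.comp (ge b L (T + 1)) =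
      (Polynomial.mapAlgHom (ge b L T)).comp (Ph q fun i => κ⁻¹ * (L i).eval ζ) := by
    apply MvPolynomial.algHom_ext
    intro i
    rw [AlgHom.comp_apply, AlgHom.comp_apply, ge_X, hgp, Ph_X]
    simp only [map_add, map_mul, map_sub, Polynomial.coe_mapAlgHom, Polynomial.map_C,
      Polynomial.map_X, RingHom.coe_coe, ge_X, ge_C]
  have h1 := congrArg (fun φ => φ f) hcomp
  simp only [AlgHom.comp_apply, h, map_zero] at h1
  have h2 := congrArg (fun p => Polynomial.coeff p k) h1
  simp only [Polynomial.coeff_zero, Polynomial.coe_mapAlgHom, Polynomial.coeff_map] at h2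
  exact h2.symm

end

end Pool.Agent.H626R2.Clu
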