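import Mathlib
import Pool.Agent.H626R2.Clu.Exp

/-!
Sums of products of affine forms that omit at most `c` factors of a fixed product.
-/

namespace Pool.Agent.H626R2.Clu

open MvPolynomial

section

variable {F : Type*} [Field F] {σ : Type*} [Fintype σ] {ι : Type*} [DecidableEq ι]

/-- combinations of products `P ∏_{r ∈ I \ S} l r` with at most `c` omitted factors and with
`P` of degree at most `δ` -/
noncomputable def Fam (I : Finset ι) (l : ι → MvPolynomial σ F) (c δ : ℕ) :
    Submodule F (MvPolynomial σ F) :=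
  Submodule.span F {f | ∃ (S : Finset ι) (P : MvPolynomial σ F),
    S ⊆ I ∧ S.card ≤ c ∧ P.totalDegree ≤ δ ∧ f = P * ∏ r ∈ I \ S, l r}

omit [Fintype σ] in
theorem Fam_mk {I S : Finset ι} {l : ι → MvPolynomial σ F} {c δ : ℕ} {P : MvPolynomial σ F}
    (hS : S ⊆ I) (hc : S.card ≤ c) (hP : P.totalDegree ≤ δ) :
    P * ∏ r ∈ I \ S, l r ∈ Fam I l c δ :=
  Submodule.subset_span ⟨S, P, hS, hc, hP, rfl⟩

omit [Fintype σ] in
theorem Fam_le {I : Finset ι} {l : ι → MvPolynomial σ F} {c δ : ℕ}
    {N : Submodule F (MvPolynomial σ F)}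
    (h : ∀ (S : Finset ι) (P : MvPolynomial σ F), S ⊆ I → S.card ≤ c → P.totalDegree ≤ δ →
      P * ∏ r ∈ I \ S, l r ∈ N) : Fam I l c δ ≤ N := by
  refine Submodule.span_le.2 ?_
  rintro _ ⟨S, P, hS, hc, hP, rfl⟩
  exact h S P hS hc hP

omit [Fintype σ] in
theorem Fam_mono {I : Finset ι} {l : ι → MvPolynomial σ F} {c c' δ δ' : ℕ} (hc : c ≤ c')
    (hδ : δ ≤ δ') : Fam I l c δ ≤ Fam I l c' δ' :=
  Fam_le fun _ _ hS h1 h2 => Fam_mk hS (h1.trans hc) (h2.trans hδ)

omit [Fintype σ] in
/-- omitted factors can be restored in the index set -/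
theorem Fam_sdiff {I S : Finset ι} (hS : S ⊆ I) (l : ι → MvPolynomial σ F) (c δ : ℕ) :
    Fam (I \ S) l c δ ≤ Fam I l (c + S.card) δ := by
  refine Fam_le fun S' P hS' h1 h2 => ?_
  have h3 : (I \ S) \ S' = I \ (S' ∪ S) := by
    rw [Finset.sdiff_sdiff_left']
    ext x
    simp only [Finset.mem_inter, Finset.mem_sdiff, Finset.mem_union]
    tauto
  rw [h3]
  refine Fam_mk ?_ ((Finset.card_union_le _ _).trans (Nat.add_le_add_right h1 _)) h2
  exact Finset.union_subset (hS'.trans Finset.sdiff_subset) hS

omit [Fintype σ] in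
/-- multiplication by a further form -/
theorem Fam_mul_form {J : Finset ι} {r : ι} (hr : r ∉ J) (l : ι → MvPolynomial σ F) {c δ : ℕ}
    {x : MvPolynomial σ F} (hx : x ∈ Fam J l c δ) : x * l r ∈ Fam (insert r J) l c δ := by
  have h : Fam J l c δ ≤ (Fam (insert r J) l c δ).comap (LinearMap.mulRight F (l r)) := by
    refine Fam_le fun S P hS h1 h2 => ?_
    rw [Submodule.mem_comap, LinearMap.mulRight_apply]
    have hrS : r ∉ S := fun h => hr (hS h)
    have h3 : insert r J \ S = insert r (J \ S) := Finset.insert_sdiff_of_notMem _ hrS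
    have h4 : r ∉ J \ S := fun h => hr (Finset.mem_sdiff.1 h).1
    have h5 : P * (∏ r ∈ J \ S, l r) * l r = P * ∏ r ∈ insert r J \ S, l r := by
      rw [h3, Finset.prod_insert h4]
      ring
    rw [h5]
    exact Fam_mk (hS.trans (Finset.subset_insert _ _)) h1 h2
  exact h hx

omit [Fintype σ] in
/-- a further form can be omitted -/
theorem Fam_drop {J : Finset ι} {r : ι} (hr : r ∉ J) (l : ι → MvPolynomial σ F) (c δ : ℕ) :
    Fam J l c δ ≤ Fam (insert r J) l (c + 1) δ := by
  have h1 : insert r J \ {r} = J := by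
    ext x
    simp only [Finset.mem_sdiff, Finset.mem_insert, Finset.mem_singleton]
    constructor
    · rintro ⟨h | h, h'⟩
      · exact absurd h h'
      · exact h
    · intro h
      exact ⟨Or.inr h, fun h' => hr (h' ▸ h)⟩
  have h2 := Fam_sdiff (I := insert r J) (S := {r}) (by simp) l c δ
  rw [h1, Finset.card_singleton] at h2
  exact h2

omit [Fintype σ] in
/-- the coefficients of the expansion of a product -/
theorem coeff_prod_mem {q : MvPolynomial σ F} (hq : q.totalDegree ≤ 1) (v : σ → F)
    {δ : ℕ} {P : MvPolynomial σ F} (hP : P.totalDegree ≤ δ) (h : ι → MvPolynomial σ F)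
    (a : ι → F) (J : Finset ι) : ∀ k,
    (Ph q v P * ∏ r ∈ J, (Polynomial.C (h r) + Polynomial.X * Polynomial.C (C (a r)))).coeff k ∈
      Fam J h k δ := by
  induction J using Finset.induction_on with
  | empty =>
    intro k
    rw [Finset.prod_empty, mul_one]
    have h1 := Fam_mk (I := (∅ : Finset ι)) (S := ∅) (l := h) (c := k) (δ := δ)
      (P := (Ph q v P).coeff k) (by simp) (by simp)
      ((totalDegree_coeff_Ph hq v P k).trans hP)
    simpa using h1
  | insert r J hr ih =>
    intro k
    rw [Finset.prod_insert hr]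
    have h1 : Ph q v P * ((Polynomial.C (h r) + Polynomial.X * Polynomial.C (C (a r))) *
        ∏ r ∈ J, (Polynomial.C (h r) + Polynomial.X * Polynomial.C (C (a r)))) =
        Ph q v P * (∏ r ∈ J, (Polynomial.C (h r) + Polynomial.X * Polynomial.C (C (a r)))) *
          Polynomial.C (h r) +
        Ph q v P * (∏ r ∈ J, (Polynomial.C (h r) + Polynomial.X * Polynomial.C (C (a r)))) *
          Polynomial.C (C (a r)) * Polynomial.X := by ring
    rw [h1, Polynomial.coeff_add, Polynomial.coeff_mul_C]
    refine Submodule.add_mem _ (Fam_mul_form hr h (ih k)) ?_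
    rcases k with _ | k
    · rw [Polynomial.mul_coeff_zero, Polynomial.coeff_X_zero, mul_zero]
      exact Submodule.zero_mem _
    · rw [Polynomial.coeff_mul_X, Polynomial.coeff_mul_C, mul_comm, ← smul_eq_C_mul]
      exact Submodule.smul_mem _ _ (Fam_drop hr h k δ (ih k))

omit [Fintype σ] in
open scoped Classical in
/-- The coefficients of low order of the expansion of an element of the family along one of its
hyperplanes omit one factor less. -/
theorem coeff_Fam_mem {q : MvPolynomial σ F} (hq : q.totalDegree ≤ 1) (v : σ → F)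
    {I : Finset ι} {l : ι → MvPolynomial σ F} (a : ι → F)
    (hl : ∀ r ∈ I, Ph q v (l r) = Polynomial.C (l r - C (a r) * q) +
      Polynomial.X * Polynomial.C (C (a r)))
    {c δ : ℕ} {f : MvPolynomial σ F} (hf : f ∈ Fam I l c δ) {k : ℕ}
    (hk : k < (I.filter fun r => l r - C (a r) * q = 0).card) :
    (Ph q v f).coeff k ∈ Fam (I.filter fun r => ¬ (l r - C (a r) * q = 0))
      (fun r => l r - C (a r) * q) (c - 1) δ := by
  set h : ι → MvPolynomial σ F := fun r => l r - C (a r) * q with hh
  set I0 := I.filter fun r => l r - C (a r) * q = 0 with hI0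
  set I1 := I.filter fun r => ¬ (l r - C (a r) * q = 0) with hI1
  have key : Fam I l c δ ≤ (Fam I1 h (c - 1) δ).comap
      ((((Polynomial.lcoeff (MvPolynomial σ F) k).restrictScalars F)).comp
        (Ph q v).toLinearMap) := by
    refine Fam_le fun S P hS h1 h2 => ?_
    rw [Submodule.mem_comap, LinearMap.comp_apply]
    show (Ph q v (P * ∏ r ∈ I \ S, l r)).coeff k ∈ Fam I1 h (c - 1) δ
    have hsplit : I \ S = (I1 \ S) ∪ (I0 \ S) := by
      ext x
      simp only [Finset.mem_union, Finset.mem_sdiff, hI0, hI1, Finset.mem_filter]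
      tauto
    have hdisj : Disjoint (I1 \ S) (I0 \ S) := by
      rw [Finset.disjoint_left]
      intro x hx hx'
      simp only [Finset.mem_sdiff, hI0, hI1, Finset.mem_filter] at hx hx'
      exact hx.1.2 hx'.1.2
    have e1 : Ph q v (P * ∏ r ∈ I \ S, l r) =
        (Ph q v P * ∏ r ∈ I1 \ S, (Polynomial.C (h r) + Polynomial.X * Polynomial.C (C (a r)))) *
          Polynomial.C (C (∏ r ∈ I0 \ S, a r)) * Polynomial.X ^ (I0 \ S).card := by
      rw [map_mul, map_prod, hsplit, Finset.prod_union hdisj]
      have e2 : ∏ r ∈ I1 \ S, Ph q v (l r) =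
          ∏ r ∈ I1 \ S, (Polynomial.C (h r) + Polynomial.X * Polynomial.C (C (a r))) := by
        apply Finset.prod_congr rfl
        intro r hr
        simp only [Finset.mem_sdiff, hI1, Finset.mem_filter] at hr
        exact hl r hr.1.1
      have e3 : ∏ r ∈ I0 \ S, Ph q v (l r) =
          Polynomial.C (C (∏ r ∈ I0 \ S, a r)) * Polynomial.X ^ (I0 \ S).card := by
        have e4 : ∏ r ∈ I0 \ S, Ph q v (l r) =
            ∏ r ∈ I0 \ S, (Polynomial.C (C (a r)) * Polynomial.X) := by
          apply Finset.prod_congr rfl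
          intro r hr
          simp only [Finset.mem_sdiff, hI0, Finset.mem_filter] at hr
          rw [hl r hr.1.1, hr.1.2, Polynomial.C_0, zero_add, mul_comm]
        rw [e4, Finset.prod_mul_distrib, Finset.prod_const, map_prod, map_prod]
      rw [e2, e3]
      ring
    rw [e1]
    by_cases hkj : k < (I0 \ S).card
    · rw [Polynomial.coeff_mul_X_pow', if_neg (by omega)]
      exact Submodule.zero_mem _
    · push Not at hkj
      rw [Polynomial.coeff_mul_X_pow', if_pos hkj, Polynomial.coeff_mul_C, mul_comm,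
        ← smul_eq_C_mul]
      refine Submodule.smul_mem _ _ ?_
      have h3 := coeff_prod_mem hq v h2 h a (I1 \ S) (k - (I0 \ S).card)
      have h4 : I1 \ S = I1 \ (I1 ∩ S) := by
        ext x
        simp only [Finset.mem_sdiff, Finset.mem_inter]
        tauto
      rw [h4] at h3 ⊢
      have h5 := Fam_sdiff (I := I1) (S := I1 ∩ S) Finset.inter_subset_left h
        (k - (I0 \ S).card) δ h3
      refine Fam_mono ?_ le_rfl h5
      have c1 : (I0 \ S).card + (I0 ∩ S).card = I0.card :=
        Finset.card_sdiff_add_card_inter _ _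
      have c2 : (I0 ∩ S).card + (I1 ∩ S).card ≤ S.card := by
        rw [← Finset.card_union_of_disjoint]
        · apply Finset.card_le_card
          intro x hx
          simp only [Finset.mem_union, Finset.mem_inter] at hx
          tauto
        · rw [Finset.disjoint_left]
          intro x hx hx'
          simp only [Finset.mem_inter, hI0, hI1, Finset.mem_filter] at hx hx'
          exact hx'.1.2 hx.1.2
      omega
  exact key hf

end

end Pool.Agent.H626R2.Clu
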