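import Mathlib
import Pool.Agent.H626R2.Clu.Fam

/-!
One cluster of products of affine forms is not killed by the generator.
-/

namespace Pool.Agent.H626R2.Clu

open MvPolynomial

section

variable {F : Type*} [Field F] {σ : Type*}

theorem prime_of_deg_one {q : MvPolynomial σ F} (hq : q.totalDegree = 1) : Prime q := by
  have h : Irreducible q := irreducible_of_totalDegree_eq_one hq (by
    intro x hx
    rw [isUnit_iff_ne_zero]
    rintro rfl
    have : q = 0 := by
      ext m
      rw [coeff_zero]
      exact zero_dvd_iff.1 (hx m)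
    rw [this, totalDegree_zero] at hq
    exact absurd hq (by norm_num))
  exact UniqueFactorizationMonoid.irreducible_iff_prime.1 h

theorem eq_C_mul_of_dvd {q l : MvPolynomial σ F} (hq : q.totalDegree = 1) (hl : l ≠ 0)
    (hl1 : l.totalDegree ≤ 1) (h : q ∣ l) : ∃ c, l = C c * q := by
  obtain ⟨u, hu⟩ := h
  have hq0 : q ≠ 0 := by
    rintro rfl
    rw [totalDegree_zero] at hq
    exact absurd hq (by norm_num)
  have hu0 : u ≠ 0 := by
    rintro rfl
    exact hl (by rw [hu, mul_zero])
  have h1 := totalDegree_mul_of_isDomain hq0 hu0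
  rw [← hu, hq] at h1
  have h2 : u.totalDegree = 0 := by omega
  rw [totalDegree_eq_zero_iff_eq_C] at h2
  exact ⟨coeff 0 u, by rw [hu, mul_comm, ← h2]⟩

open scoped Classical in
/-- Divisibility by a product of affine forms, from the divisibility by the powers. -/
theorem prod_dvd_of_pow {ι : Type*} {I : Finset ι} {l : ι → MvPolynomial σ F}
    (hl : ∀ r ∈ I, l r ≠ 0 ∧ (l r).totalDegree ≤ 1) {f : MvPolynomial σ F}
    (hf : ∀ r0 ∈ I, (l r0).totalDegree = 1 →
      (l r0) ^ (I.filter fun r => ∃ c, l r = C c * l r0).card ∣ f) :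
    ∏ r ∈ I, l r ∣ f := by
  have key : ∀ J : Finset ι, J ⊆ I → ∏ r ∈ J, l r ∣ f := by
    intro J
    induction J using Finset.induction_on with
    | empty => intro _; rw [Finset.prod_empty]; exact one_dvd f
    | insert r0 J hr0 ih =>
      intro hJ
      have hr0I : r0 ∈ I := hJ (Finset.mem_insert_self _ _)
      have hJI : J ⊆ I := (Finset.subset_insert _ _).trans hJ
      obtain ⟨g, hg⟩ := ih hJI
      rw [Finset.prod_insert hr0]
      rcases Nat.lt_or_ge 0 (l r0).totalDegree with hpos | hzero
      · have hdeg : (l r0).totalDegree = 1 := le_antisymm (hl r0 hr0I).2 hpos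
        have hprime := prime_of_deg_one hdeg
        set q := l r0 with hq
        have hq0 : q ≠ 0 := (hl r0 hr0I).1
        -- split
        set p : ι → Prop := fun r => ∃ c, l r = C c * q with hp
        have hsplit : ∏ r ∈ J, l r = (∏ r ∈ J.filter p, l r) * ∏ r ∈ J.filter (fun r => ¬ p r), l r :=
          (Finset.prod_filter_mul_prod_filter_not J p l).symm
        have hu : ∃ u : F, ∏ r ∈ J.filter p, l r = C u * q ^ (J.filter p).card := by
          have h1 : ∀ r, ∃ c, r ∈ J.filter p → l r = C c * q := by
            intro r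
            by_cases hr : r ∈ J.filter p
            · obtain ⟨c, hc⟩ := (Finset.mem_filter.1 hr).2
              exact ⟨c, fun _ => hc⟩
            · exact ⟨0, fun h => absurd h hr⟩
          choose c hc using h1
          refine ⟨∏ r ∈ J.filter p, c r, ?_⟩
          rw [Finset.prod_congr rfl fun r hr => hc r hr, Finset.prod_mul_distrib,
            Finset.prod_const, map_prod]
        obtain ⟨u, hu⟩ := hu
        have hcard : (J.filter p).card + 1 ≤ (I.filter p).card := by
          have h1 : insert r0 (J.filter p) ⊆ I.filter p := by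
            intro r hr
            rw [Finset.mem_insert, Finset.mem_filter] at hr
            rw [Finset.mem_filter]
            rcases hr with rfl | ⟨h1, h2⟩
            · exact ⟨hr0I, 1, by rw [C_1, one_mul]⟩
            · exact ⟨hJI h1, h2⟩
          have h2 := Finset.card_le_card h1
          rwa [Finset.card_insert_of_notMem (fun h => hr0 (Finset.mem_filter.1 h).1)] at h2
        have hdvd : q ^ ((J.filter p).card + 1) ∣ f :=
          (pow_dvd_pow q hcard).trans (hf r0 hr0I hdeg)
        have h3 : q ∣ C u * ((∏ r ∈ J.filter (fun r => ¬ p r), l r) * g) := by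
          have h4 : f = q ^ (J.filter p).card *
              (C u * ((∏ r ∈ J.filter (fun r => ¬ p r), l r) * g)) := by
            rw [hg, hsplit, hu]
            ring
          rw [h4, pow_succ] at hdvd
          exact (mul_dvd_mul_iff_left (pow_ne_zero _ hq0)).1 hdvd
        have hu0 : u ≠ 0 := by
          rintro rfl
          rw [C_0, zero_mul, Finset.prod_eq_zero_iff] at hu
          obtain ⟨r, hr, hr'⟩ := hu
          exact (hl r (hJI (Finset.mem_filter.1 hr).1)).1 hr'
        have h5 : q ∣ g := by
          rcases hprime.dvd_or_dvd h3 with h | h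
          · exfalso
            have h6 : IsUnit (C u : MvPolynomial σ F) := by
              rw [isUnit_iff_exists_inv]
              exact ⟨C u⁻¹, by rw [← C_mul, mul_inv_cancel₀ hu0, C_1]⟩
            exact hprime.not_isUnit (isUnit_of_dvd_unit h h6)
          · rcases hprime.dvd_or_dvd h with h | h
            · exfalso
              obtain ⟨r, hr, hrq⟩ := (hprime.dvd_finsetProd_iff _).1 h
              rw [Finset.mem_filter] at hr
              exact hr.2 (eq_C_mul_of_dvd hdeg (hl r (hJI hr.1)).1 (hl r (hJI hr.1)).2 hrq)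
            · exact h
        obtain ⟨g', hg'⟩ := h5
        exact ⟨g', by rw [hg, hg']; ring⟩
      · have h0 : (l r0).totalDegree = 0 := by omega
        rw [totalDegree_eq_zero_iff_eq_C] at h0
        have hc0 : coeff 0 (l r0) ≠ 0 := by
          intro h
          rw [h, C_0] at h0
          exact (hl r0 hr0I).1 h0
        refine ⟨C (coeff 0 (l r0))⁻¹ * g, ?_⟩
        rw [hg]
        conv_rhs => rw [h0]
        rw [coeff_zero_C]
        have h1 : (C (coeff 0 (l r0)) : MvPolynomial σ F) * C (coeff 0 (l r0))⁻¹ = 1 := by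
          rw [← C_mul, mul_inv_cancel₀ hc0, C_1]
        linear_combination (-(∏ r ∈ J, l r) * g) * h1
  exact key I (Finset.Subset.refl I)

end

section

variable {F : Type*} [Field F] {σ : Type*} [Fintype σ] {ι : Type*} [DecidableEq ι]

/-- affine forms -/
def IsAf (q : MvPolynomial σ F) : Prop := ∃ β a, q = af β a

theorem IsAf.sub {q q' : MvPolynomial σ F} (h : IsAf q) (h' : IsAf q') (c : F) :
    IsAf (q - C c * q') := by
  obtain ⟨β, a, rfl⟩ := h
  obtain ⟨β', a', rfl⟩ := h'
  exact ⟨_, _, af_sub β β' c a a'⟩

theorem IsAf.deg {q : MvPolynomial σ F} (h : IsAf q) : q.totalDegree ≤ 1 := by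
  obtain ⟨β, a, rfl⟩ := h
  exact totalDegree_af_le β a

omit [Fintype σ] in
theorem Fam_zero {I : Finset ι} {l : ι → MvPolynomial σ F} {δ : ℕ} {f : MvPolynomial σ F}
    (hf : f ∈ Fam I l 0 δ) : ∃ P : MvPolynomial σ F, P.totalDegree ≤ δ ∧
      f = P * ∏ r ∈ I, l r := by
  unfold Fam at hf
  induction hf using Submodule.span_induction with
  | mem x hx =>
    obtain ⟨S, P, -, hS, hP, rfl⟩ := hx
    rw [Nat.le_zero, Finset.card_eq_zero] at hS
    refine ⟨P, hP, ?_⟩
    rw [hS, Finset.sdiff_empty]
  | zero => exact ⟨0, by simp, by simp⟩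
  | add x y _ _ hx hy =>
    obtain ⟨P, hP, rfl⟩ := hx
    obtain ⟨P', hP', rfl⟩ := hy
    exact ⟨P + P', (totalDegree_add _ _).trans (max_le hP hP'), by ring⟩
  | smul a x _ hx =>
    obtain ⟨P, hP, rfl⟩ := hx
    exact ⟨a • P, (totalDegree_smul_le _ _).trans hP, by rw [smul_mul_assoc]⟩

omit [Fintype σ] [DecidableEq ι] in
theorem totalDegree_prod' (I : Finset ι) (l : ι → MvPolynomial σ F) (hl : ∀ r ∈ I, l r ≠ 0) :
    (∏ r ∈ I, l r).totalDegree = ∑ r ∈ I, (l r).totalDegree := by
  classical
  induction I using Finset.induction_on with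
  | empty => simp
  | insert r J hr ih =>
    rw [Finset.prod_insert hr, Finset.sum_insert hr, totalDegree_mul_of_isDomain
      (hl r (Finset.mem_insert_self _ _))
      (Finset.prod_ne_zero_iff.2 fun s hs => hl s (Finset.mem_insert_of_mem hs)),
      ih fun s hs => hl s (Finset.mem_insert_of_mem hs)]

omit [Fintype σ] in
theorem totalDegree_Fam {I : Finset ι} {l : ι → MvPolynomial σ F} {c δ : ℕ}
    {f : MvPolynomial σ F} (hf : f ∈ Fam I l c δ) :
    f.totalDegree ≤ δ + ∑ r ∈ I, (l r).totalDegree := by
  have h : Fam I l c δ ≤ restrictTotalDegree σ F (δ + ∑ r ∈ I, (l r).totalDegree) := by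
    refine Fam_le fun S P hS h1 h2 => ?_
    rw [mem_restrictTotalDegree]
    refine (totalDegree_mul _ _).trans (Nat.add_le_add h2 ?_)
    refine (totalDegree_finsetProd _ _).trans ?_
    exact Finset.sum_le_sum_of_subset Finset.sdiff_subset
  exact (mem_restrictTotalDegree _ _ _).1 (h hf)

/-- **One cluster.** -/
theorem thmG [CharZero F] (b : σ → F) {L : σ → Polynomial F} (hL : LinearIndependent F L)
    (c : ℕ) : ∀ (I : Finset ι) (l : ι → MvPolynomial σ F) (δ T : ℕ) (f : MvPolynomial σ F),
      (∀ r ∈ I, IsAf (l r) ∧ l r ≠ 0) → f ∈ Fam I l c δ → c + max δ 1 ≤ T →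
      ge b L T f = 0 → f = 0 := by
  classical
  induction c with
  | zero =>
    intro I l δ T f hl hf hT h
    obtain ⟨P, hP, rfl⟩ := Fam_zero hf
    rw [map_mul, map_prod] at h
    have hδ : δ ≤ T := by omega
    have h1 : 1 ≤ T := by omega
    rcases mul_eq_zero.1 h with h | h
    · rw [ge_low' b L hL hδ hP h, zero_mul]
    · obtain ⟨r, hr, h⟩ := Finset.prod_eq_zero_iff.1 h
      exact absurd (ge_low' b L hL h1 (hl r hr).1.deg h) (hl r hr).2
  | succ c ih =>
    intro I l δ T f hl hf hT h
    obtain ⟨T, rfl⟩ : ∃ T', T = T' + 1 := ⟨T - 1, by omega⟩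
    by_contra hf0
    -- powers
    have hpow : ∀ r0 ∈ I, (l r0).totalDegree = 1 →
        (l r0) ^ (I.filter fun r => ∃ c, l r = C c * l r0).card ∣ f := by
      intro r0 hr0 hdeg
      obtain ⟨⟨β, a, hq⟩, -⟩ := hl r0 hr0
      have ha0 : a ≠ 0 := by
        rintro rfl
        rw [hq] at hdeg
        have : af β (0 : σ → F) = C β := by
          unfold af; simp
        rw [this, totalDegree_C] at hdeg
        exact absurd hdeg (by norm_num)
      obtain ⟨ζ, hζ⟩ : ∃ ζ : F, ∑ i, a i * (L i).eval ζ ≠ 0 := by
        by_contra hcon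
        push Not at hcon
        apply ha0
        have h1 : ∑ i, a i • L i = 0 := by
          apply Polynomial.funext
          intro ζ
          rw [Polynomial.eval_finsetSum, Polynomial.eval_zero, ← hcon ζ]
          apply Finset.sum_congr rfl
          intro i _
          rw [Polynomial.eval_smul, smul_eq_mul]
        funext i
        exact Fintype.linearIndependent_iff.1 hL a h1 i
      set κ := ∑ i, a i * (L i).eval ζ with hκ
      set v : σ → F := fun i => κ⁻¹ * (L i).eval ζ with hv
      -- coefficients of the forms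
      have hal : ∀ r, ∃ α : F, r ∈ I → Ph (l r0) v (l r) =
          Polynomial.C (l r - C α * l r0) + Polynomial.X * Polynomial.C (C α) := by
        intro r
        by_cases hr : r ∈ I
        · obtain ⟨⟨β', a', hr'⟩, -⟩ := hl r hr
          refine ⟨∑ i, a' i * v i, fun _ => ?_⟩
          rw [hr']
          exact Ph_af _ _ _ _
        · exact ⟨0, fun h => absurd h hr⟩
      choose α hα using hal
      have hκ1 : ∑ i, a i * v i = 1 := by
        have : ∑ i, a i * v i = κ⁻¹ * κ := by
          rw [hκ, Finset.mul_sum]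
          apply Finset.sum_congr rfl
          intro i _
          rw [hv]
          ring
        rw [this, inv_mul_cancel₀ hζ]
      have hPq : Ph (l r0) v (l r0) = Polynomial.X := by
        have h1 : Ph (l r0) v (af β a) = _ := Ph_af _ _ _ _
        rw [← hq, hκ1, C_1, one_mul, sub_self, Polynomial.C_0, zero_add, Polynomial.C_1,
          mul_one] at h1
        exact h1
      have hsub : (I.filter fun r => ∃ c, l r = C c * l r0) ⊆
          I.filter fun r => l r - C (α r) * l r0 = 0 := by
        intro r hr
        rw [Finset.mem_filter] at hr ⊢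
        obtain ⟨hrI, c', hc'⟩ := hr
        refine ⟨hrI, ?_⟩
        have h1 := hα r hrI
        have h2 : Ph (l r0) v (l r) = Polynomial.C (C c') * Polynomial.X := by
          rw [hc', map_mul, hPq, Ph_C]
        rw [h2] at h1
        have h3 := congrArg (fun p => Polynomial.coeff p 0) h1
        simpa using h3.symm
      have hq1 : (l r0).totalDegree ≤ 1 := hdeg.le
      have hX : (Polynomial.X : Polynomial (MvPolynomial σ F)) ^
          (I.filter fun r => ∃ c, l r = C c * l r0).card ∣ Ph (l r0) v f := by
        rw [Polynomial.X_pow_dvd_iff]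
        intro k hk
        have hk' := hk.trans_le (Finset.card_le_card hsub)
        have h1 := coeff_Fam_mem hq1 v α (fun r hr => hα r hr) hf hk'
        have h2 : ge b L T ((Ph (l r0) v f).coeff k) = 0 := by
          rw [hq]
          exact ge_coeff_Ph b L T β a ζ h k
        refine ih _ _ δ T _ ?_ h1 (by omega) h2
        intro r hr
        rw [Finset.mem_filter] at hr
        exact ⟨(hl r hr.1).1.sub (hl r0 hr0).1 _, hr.2⟩
      have h3 := map_dvd (Polynomial.evalRingHom (l r0)) hX
      rw [map_pow] at h3
      simpa [Ph_eval] using h3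
    obtain ⟨g, hg⟩ := prod_dvd_of_pow (fun r hr => ⟨(hl r hr).2, (hl r hr).1.deg⟩) hpow
    have hg0 : g ≠ 0 := by
      rintro rfl
      exact hf0 (by rw [hg, mul_zero])
    have hprod0 : ∏ r ∈ I, l r ≠ 0 := Finset.prod_ne_zero_iff.2 fun r hr => (hl r hr).2
    have hdeg := totalDegree_Fam hf
    rw [hg, totalDegree_mul_of_isDomain hprod0 hg0,
      totalDegree_prod' I l fun r hr => (hl r hr).2] at hdeg
    have hgδ : g.totalDegree ≤ δ := by omega
    rw [hg, map_mul, map_prod] at h
    rcases mul_eq_zero.1 h with h | h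
    · obtain ⟨r, hr, h⟩ := Finset.prod_eq_zero_iff.1 h
      exact (hl r hr).2 (ge_low' b L hL (by omega) (hl r hr).1.deg h)
    · exact hg0 (ge_low' b L hL (by omega) hgδ h)

end

end Pool.Agent.H626R2.Clu
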