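import Mathlib
import Pool.Agent.H626R2.Clu.ThmG

/-!
Sums of boundedly many clusters of products of affine forms.
-/

namespace Pool.Agent.H626R2.Clu

open MvPolynomial

section

variable {F : Type*} [Field F] {σ : Type*} {ι ι' : Type} [DecidableEq ι] [DecidableEq ι']

theorem Fam_mul_poly {I : Finset ι} {l : ι → MvPolynomial σ F} {c δ δ' : ℕ}
    {P x : MvPolynomial σ F} (hP : P.totalDegree ≤ δ) (hx : x ∈ Fam I l c δ') :
    P * x ∈ Fam I l c (δ + δ') := by
  have h : Fam I l c δ' ≤ (Fam I l c (δ + δ')).comap (LinearMap.mulLeft F P) := by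
    refine Fam_le fun S P' hS h1 h2 => ?_
    rw [Submodule.mem_comap, LinearMap.mulLeft_apply, ← mul_assoc]
    exact Fam_mk hS h1 ((totalDegree_mul _ _).trans (Nat.add_le_add hP h2))
  exact h hx

theorem Fam_mul {I : Finset ι} {l : ι → MvPolynomial σ F} {c δ : ℕ} {I' : Finset ι'}
    {l' : ι' → MvPolynomial σ F} {c' δ' : ℕ} {f g : MvPolynomial σ F} (hf : f ∈ Fam I l c δ)
    (hg : g ∈ Fam I' l' c' δ') :
    f * g ∈ Fam (I.disjSum I') (Sum.elim l l') (c + c') (δ + δ') := by
  classical
  have key : ∀ (S : Finset ι) (P : MvPolynomial σ F), S ⊆ I → S.card ≤ c → P.totalDegree ≤ δ →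
      Fam I' l' c' δ' ≤ (Fam (I.disjSum I') (Sum.elim l l') (c + c') (δ + δ')).comap
        (LinearMap.mulLeft F (P * ∏ r ∈ I \ S, l r)) := by
    intro S P hS h1 h2
    refine Fam_le fun S' P' hS' h1' h2' => ?_
    rw [Submodule.mem_comap, LinearMap.mulLeft_apply]
    have e1 : I.disjSum I' \ S.disjSum S' = (I \ S).disjSum (I' \ S') := by
      ext x
      rcases x with x | x <;> simp
    have e2 : P * (∏ r ∈ I \ S, l r) * (P' * ∏ r ∈ I' \ S', l' r) =
        P * P' * ∏ r ∈ I.disjSum I' \ S.disjSum S', Sum.elim l l' r := by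
      rw [e1, Finset.prod_disjSum]
      simp only [Sum.elim_inl, Sum.elim_inr]
      ring
    rw [e2]
    refine Fam_mk ?_ ?_ ((totalDegree_mul _ _).trans (Nat.add_le_add h2 h2'))
    · intro x hx
      rcases x with x | x
      · rw [Finset.inl_mem_disjSum] at hx ⊢
        exact hS hx
      · rw [Finset.inr_mem_disjSum] at hx ⊢
        exact hS' hx
    · rw [Finset.card_disjSum]
      exact Nat.add_le_add h1 h1'
  have key2 : Fam I l c δ ≤ (Fam (I.disjSum I') (Sum.elim l l') (c + c') (δ + δ')).comap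
        (LinearMap.mulRight F g) := by
    refine Fam_le fun S P hS h1 h2 => ?_
    rw [Submodule.mem_comap, LinearMap.mulRight_apply]
    exact key S P hS h1 h2 hg
  exact key2 hf

end

section

variable {F : Type*} [Field F] {σ : Type*} [Fintype σ] {ι ι' : Type} [DecidableEq ι]
  [DecidableEq ι']

theorem pderiv_af (i : σ) (β : F) (a : σ → F) : pderiv i (af β a) = C (a i) := by
  classical
  unfold af
  rw [map_add, pderiv_C, zero_add, map_sum, Finset.sum_eq_single i]
  · rw [pderiv_C_mul, pderiv_X_self, mul_one]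
  · intro j _ hj
    rw [pderiv_C_mul, pderiv_X_of_ne hj, mul_zero]
  · intro h
    exact absurd (Finset.mem_univ i) h

theorem pderiv_prod_mem (i : σ) (l : ι → MvPolynomial σ F) (J : Finset ι)
    (hl : ∀ r ∈ J, IsAf (l r)) : pderiv i (∏ r ∈ J, l r) ∈ Fam J l 1 0 := by
  induction J using Finset.induction_on with
  | empty =>
    rw [Finset.prod_empty, pderiv_one]
    exact Submodule.zero_mem _
  | insert r J hr ih =>
    rw [Finset.prod_insert hr, pderiv_mul]
    refine Submodule.add_mem _ ?_ ?_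
    · obtain ⟨β, a, ha⟩ := hl r (Finset.mem_insert_self _ _)
      rw [ha, pderiv_af]
      have h1 := Fam_mk (I := J) (S := ∅) (l := l) (c := 0) (δ := 0) (P := C (a i)) (by simp)
        (by simp) (by simp)
      rw [Finset.sdiff_empty] at h1
      exact Fam_drop hr l 0 0 h1
    · rw [mul_comm]
      exact Fam_mul_form hr l (ih fun s hs => hl s (Finset.mem_insert_of_mem hs))

theorem Fam_pderiv (i : σ) {I : Finset ι} {l : ι → MvPolynomial σ F} (hl : ∀ r ∈ I, IsAf (l r))
    {c δ : ℕ} {f : MvPolynomial σ F} (hf : f ∈ Fam I l c δ) :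
    pderiv i f ∈ Fam I l (c + 1) δ := by
  have h : Fam I l c δ ≤ (Fam I l (c + 1) δ).comap (pderiv (R := F) i).toLinearMap := by
    refine Fam_le fun S P hS h1 h2 => ?_
    rw [Submodule.mem_comap]
    show pderiv i (P * ∏ r ∈ I \ S, l r) ∈ _
    rw [pderiv_mul]
    refine Submodule.add_mem _ ?_ ?_
    · exact Fam_mono (Nat.le_succ c) le_rfl (Fam_mk hS h1
        ((totalDegree_pderiv_le i P).trans (by omega)))
    · have h3 := pderiv_prod_mem i l (I \ S) fun r hr => hl r (Finset.mem_sdiff.1 hr).1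
      have h4 := Fam_mul_poly (P := P) h2 h3
      have h5 := Fam_sdiff hS l 1 (δ + 0) h4
      exact Fam_mono (by omega) (by omega) h5
  exact h hf

/-- Polynomials with vanishing Wronskians are proportional. -/
theorem eq_C_mul_of_wr [CharZero F] {f g : MvPolynomial σ F} (hg : g ≠ 0)
    (h : ∀ i, pderiv i f * g = f * pderiv i g) : ∃ c, f = C c * g := by
  obtain ⟨f', g', d, hrel, hf', hg'⟩ :=
    UniqueFactorizationMonoid.exists_reduced_factors' f g hg
  have hd : d ≠ 0 := by
    rintro rfl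
    exact hg (by rw [← hg', zero_mul])
  have hg0 : g' ≠ 0 := by
    rintro rfl
    exact hg (by rw [← hg', mul_zero])
  have h' : ∀ i, pderiv i f' * g' = f' * pderiv i g' := by
    intro i
    have h1 := h i
    rw [← hf', ← hg', pderiv_mul, pderiv_mul] at h1
    have h2 : d * d * (pderiv i f' * g') = d * d * (f' * pderiv i g') := by
      linear_combination h1
    exact mul_left_cancel₀ (mul_ne_zero hd hd) h2
  have hgi : ∀ i, pderiv i g' = 0 := by
    intro i
    by_contra hne
    have h1 : g' ∣ f' * pderiv i g' := by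
      rw [← h' i]
      exact dvd_mul_left _ _
    have h2 : g' ∣ pderiv i g' := hrel.symm.dvd_of_dvd_mul_left h1
    have h3 := totalDegree_le_of_dvd_of_isDomain h2 hne
    have h4 := totalDegree_pderiv_le i g'
    have h5 : g'.totalDegree = 0 := by omega
    rw [totalDegree_eq_zero_iff_eq_C] at h5
    rw [h5, pderiv_C] at hne
    exact hne rfl
  obtain ⟨s, hs⟩ := eq_C_of_grad hgi
  have hs0 : s ≠ 0 := by
    rintro rfl
    exact hg0 (by rw [hs, C_0])
  have hfi : ∀ i, pderiv i f' = 0 := by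
    intro i
    have h1 := h' i
    rw [hgi i, mul_zero] at h1
    rcases mul_eq_zero.1 h1 with h2 | h2
    · exact h2
    · exact absurd h2 hg0
  obtain ⟨r, hr⟩ := eq_C_of_grad hfi
  refine ⟨r * s⁻¹, ?_⟩
  rw [← hf', ← hg', hr, hs]
  have h1 : (C (r * s⁻¹) : MvPolynomial σ F) * C s = C r := by
    rw [← C_mul, mul_assoc, inv_mul_cancel₀ hs0, mul_one]
  linear_combination (-d) * h1

/-- one cluster -/
def Cls (c δ : ℕ) (f : MvPolynomial σ F) : Prop :=
  ∃ (ι : Type) (_ : DecidableEq ι) (I : Finset ι) (l : ι → MvPolynomial σ F),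
    (∀ r ∈ I, IsAf (l r) ∧ l r ≠ 0) ∧ f ∈ Fam I l c δ

theorem Cls.wr {c δ c' δ' : ℕ} {f g : MvPolynomial σ F} (hf : Cls c δ f) (hg : Cls c' δ' g)
    (i : σ) : Cls (c + c' + 1) (δ + δ') (pderiv i f * g - f * pderiv i g) := by
  obtain ⟨ι, dι, I, l, hl, hf⟩ := hf
  obtain ⟨ι', dι', I', l', hl', hg⟩ := hg
  refine ⟨ι ⊕ ι', inferInstance, I.disjSum I', Sum.elim l l', ?_, ?_⟩
  · intro r hr
    rcases r with r | r
    · rw [Finset.inl_mem_disjSum] at hr
      exact hl r hr
    · rw [Finset.inr_mem_disjSum] at hr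
      exact hl' r hr
  · refine Submodule.sub_mem _ ?_ ?_
    · exact Fam_mono (by omega) le_rfl (Fam_mul (Fam_pderiv i (fun r hr => (hl r hr).1) hf) hg)
    · exact Fam_mono (by omega) le_rfl (Fam_mul hf (Fam_pderiv i (fun r hr => (hl' r hr).1) hg))

/-- the number of seeds for `k + 1` clusters -/
def Tn : ℕ → ℕ → ℕ → ℕ
  | 0, c, δ => c + max δ 1
  | k + 1, c, δ => Tn k (2 * c + 1) (2 * δ) + 1

theorem Tn_mono (k : ℕ) : ∀ {c c' δ δ' : ℕ}, c ≤ c' → δ ≤ δ' → Tn k c δ ≤ Tn k c' δ' := by
  induction k with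
  | zero =>
    intro c c' δ δ' h h'
    simp only [Tn]
    omega
  | succ k ih =>
    intro c c' δ δ' h h'
    simp only [Tn]
    exact Nat.succ_le_succ (ih (by omega) (by omega))

theorem Tn_succ (k c δ : ℕ) : Tn k c δ ≤ Tn (k + 1) c δ := by
  have h : Tn k c δ ≤ Tn k (2 * c + 1) (2 * δ) := Tn_mono k (by omega) (by omega)
  have h' : Tn (k + 1) c δ = Tn k (2 * c + 1) (2 * δ) + 1 := rfl
  omega

theorem Tn_zero_le (k c δ : ℕ) : Tn 0 c δ ≤ Tn k c δ := by
  induction k with
  | zero => exact le_rfl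
  | succ k ih => exact ih.trans (Tn_succ k c δ)

theorem Tn_eq (k : ℕ) : ∀ c δ : ℕ, Tn k c δ + 1 = 2 ^ k * (c + 1) + max (2 ^ k * δ) 1 + k := by
  induction k with
  | zero =>
    intro c δ
    simp only [Tn]
    omega
  | succ k ih =>
    intro c δ
    have h := ih (2 * c + 1) (2 * δ)
    have h1 : 2 ^ k * (2 * c + 1 + 1) = 2 ^ (k + 1) * (c + 1) := by ring
    have h2 : 2 ^ k * (2 * δ) = 2 ^ (k + 1) * δ := by ring
    rw [h1, h2] at h
    simp only [Tn]
    omega

/-- **The cluster theorem.** -/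
theorem clusters [CharZero F] (b : σ → F) {L : σ → Polynomial F} (hL : LinearIndependent F L)
    (k : ℕ) : ∀ (c δ T : ℕ) (f : Fin (k + 1) → MvPolynomial σ F), (∀ j, Cls c δ (f j)) →
      Tn k c δ ≤ T → ge b L T (∑ j, f j) = 0 → ∑ j, f j = 0 := by
  induction k with
  | zero =>
    intro c δ T f hf hT h
    rw [Fin.sum_univ_one] at h ⊢
    obtain ⟨ι, dι, I, l, hl, hfl⟩ := hf 0
    exact thmG b hL c I l δ T _ hl hfl hT h
  | succ k ih =>
    intro c δ T f hf hT h
    rw [Fin.sum_univ_castSucc] at h ⊢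
    set g := f (Fin.last (k + 1)) with hg
    by_cases hg0 : g = 0
    · rw [hg0, add_zero] at h ⊢
      exact ih c δ T _ (fun j => hf _) ((Tn_succ k c δ).trans hT) h
    · set G := ∑ j : Fin (k + 1), f (Fin.castSucc j) with hG
      obtain ⟨T, rfl⟩ : ∃ T', T = T' + 1 := ⟨T - 1, by simp only [Tn] at hT; omega⟩
      have hT' : Tn k (2 * c + 1) (2 * δ) ≤ T := by
        simp only [Tn] at hT; omega
      have hW : ∀ i, pderiv i (G + g) * g = (G + g) * pderiv i g := by
        intro i
        have h1 := ih (2 * c + 1) (2 * δ) T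
          (fun j => pderiv i (f (Fin.castSucc j)) * g - f (Fin.castSucc j) * pderiv i g)
          (fun j => by
            have h2 := (hf (Fin.castSucc j)).wr (hf (Fin.last (k + 1))) i
            have e1 : c + c + 1 = 2 * c + 1 := by ring
            have e2 : δ + δ = 2 * δ := by ring
            rw [e1, e2] at h2
            exact h2) hT'
        have h3 : ∑ j : Fin (k + 1), (pderiv i (f (Fin.castSucc j)) * g -
            f (Fin.castSucc j) * pderiv i g) = pderiv i (G + g) * g - (G + g) * pderiv i g := by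
          rw [Finset.sum_sub_distrib, ← Finset.sum_mul, ← Finset.sum_mul, ← map_sum, ← hG,
            map_add]
          ring
        rw [h3] at h1
        refine sub_eq_zero.1 (h1 ?_)
        rw [map_sub, map_mul, map_mul, ge_grad b L hL T h i, ge_mono b L (Nat.le_succ T) h,
          zero_mul, zero_mul, sub_zero]
      obtain ⟨s, hs⟩ := eq_C_mul_of_wr hg0 hW
      have h1 := h
      rw [hs, map_mul, ge_C] at h1
      rcases mul_eq_zero.1 h1 with h2 | h2
      · rw [hs, C_eq_zero.1 h2, C_0, zero_mul]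
      · exfalso
        apply hg0
        obtain ⟨ι, dι, I, l, hl, hfl⟩ := hf (Fin.last (k + 1))
        exact thmG b hL c I l δ (T + 1) _ hl hfl ((Tn_zero_le _ _ _).trans hT) h2

end

end Pool.Agent.H626R2.Clu
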