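import Mathlib
import Pool.Agent.H626R2.Clu.Main
import Pool.Agent.H626R2.PRed

/-!
# Clusters of power products of affine forms: definition of the class, reduction to integer
polynomials and injectivity of the substitution
-/

set_option autoImplicit false

namespace Pool.Agent.H626R2.Clu

open MvPolynomial Pool.Agent.H531R2

section

variable {F : Type*} [Field F] {σ : Type*} [Fintype σ]

/-- power products whose exponents are close to a fixed vector form a cluster -/
theorem Cls_of_exps {n m : ℕ} (l : Fin n → MvPolynomial σ F) (hl : ∀ j, IsAf (l j) ∧ l j ≠ 0)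
    (B : Fin n → ℕ) (e : Fin m → Fin n → ℕ) (s : Finset (Fin m)) {c δ : ℕ}
    (h1 : ∀ i ∈ s, ∑ j, (B j - e i j) ≤ c) (h2 : ∀ i ∈ s, ∑ j, (e i j - B j) ≤ δ)
    (γ : Fin m → F) : Cls c δ (∑ i ∈ s, C (γ i) * ∏ j, l j ^ e i j) := by
  classical
  refine ⟨Σ _ : Fin n, ℕ, inferInstance, Finset.univ.sigma fun j => Finset.range (B j),
    fun x => l x.1, fun r _ => hl r.1, ?_⟩
  refine Submodule.sum_mem _ fun i hi => ?_
  rw [← smul_eq_C_mul]
  refine Submodule.smul_mem _ _ ?_
  have e1 : (Finset.univ.sigma fun j => Finset.range (B j)) \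
      (Finset.univ.sigma fun j => Finset.Ico (e i j) (B j)) =
      Finset.univ.sigma fun j => Finset.range (min (e i j) (B j)) := by
    ext ⟨j, s⟩
    simp only [Finset.mem_sdiff, Finset.mem_sigma, Finset.mem_univ, true_and, Finset.mem_range,
      Finset.mem_Ico, lt_min_iff]
    omega
  have e2 : ∏ j, l j ^ e i j = (∏ j, l j ^ (e i j - B j)) *
      ∏ x ∈ (Finset.univ.sigma fun j => Finset.range (B j)) \
        (Finset.univ.sigma fun j => Finset.Ico (e i j) (B j)), l x.1 := by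
    rw [e1, Finset.prod_sigma, ← Finset.prod_mul_distrib]
    refine Finset.prod_congr rfl fun j _ => ?_
    simp only [Finset.prod_const, Finset.card_range]
    rw [← pow_add]
    congr 1
    omega
  rw [e2]
  refine Fam_mk ?_ ?_ ?_
  · intro ⟨j, s⟩ hx
    simp only [Finset.mem_sigma, Finset.mem_univ, true_and, Finset.mem_range,
      Finset.mem_Ico] at hx ⊢
    exact hx.2
  · rw [Finset.card_sigma]
    simp only [Nat.card_Ico]
    exact h1 i hi
  · refine (totalDegree_finsetProd _ _).trans (le_trans (Finset.sum_le_sum fun j _ => ?_) (h2 i hi))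
    refine (totalDegree_pow _ _).trans ?_
    exact (Nat.mul_le_mul_left _ (hl j).1.deg).trans (by rw [mul_one])

/-- the cluster theorem for power products -/
theorem clusters_exps [CharZero F] (b : σ → F) {L : σ → Polynomial F}
    (hL : LinearIndependent F L) {n m k r : ℕ} (l : Fin n → MvPolynomial σ F)
    (hl : ∀ j, IsAf (l j) ∧ l j ≠ 0) (e : Fin m → Fin n → ℕ) (g : Fin m → Fin k)
    (B : Fin k → Fin n → ℕ)
    (he : ∀ i, ∑ j, ((B (g i) j - e i j) + (e i j - B (g i) j)) ≤ r) (γ : Fin m → F)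
    (h : ge b L (Tn k r r) (∑ i, C (γ i) * ∏ j, l j ^ e i j) = 0) :
    ∑ i, C (γ i) * ∏ j, l j ^ e i j = 0 := by
  classical
  set t : Fin m → MvPolynomial σ F := fun i => C (γ i) * ∏ j, l j ^ e i j with ht
  set f : Fin (k + 1) → MvPolynomial σ F :=
    Fin.lastCases 0 (fun a => ∑ i ∈ Finset.univ.filter (fun i => g i = a), t i) with hf
  have hsum : ∑ a, f a = ∑ i, t i := by
    rw [Fin.sum_univ_castSucc]
    simp only [hf, Fin.lastCases_castSucc, Fin.lastCases_last, add_zero]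
    rw [Finset.sum_fiberwise]
  rw [← hsum] at h ⊢
  refine clusters b hL k r r (Tn k r r) f ?_ le_rfl h
  intro a
  refine Fin.lastCases ?_ (fun a => ?_) a
  · simp only [hf, Fin.lastCases_last]
    exact ⟨Fin 0, inferInstance, ∅, fun _ => 0, by simp, Submodule.zero_mem _⟩
  · simp only [hf, Fin.lastCases_castSucc]
    refine Cls_of_exps l hl (B a) e _ ?_ ?_ γ
    · intro i hi
      rw [Finset.mem_filter] at hi
      refine le_trans (Finset.sum_le_sum fun j _ => ?_) (he i)
      rw [hi.2]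
      exact Nat.le_add_right _ _
    · intro i hi
      rw [Finset.mem_filter] at hi
      refine le_trans (Finset.sum_le_sum fun j _ => ?_) (he i)
      rw [hi.2]
      exact Nat.le_add_left _ _

end

section

/-- `F` is a rational combination `∑ c_i T_i` of `n` power products `T_i = ∏_j ℓ_j ^ e_ij`. Here
the `ℓ_j` are `n` affine linear forms in at most `n` variables with integer coefficients of
absolute value at most `2 ^ n`, the exponents `e_ij` are at most `2 ^ n`, the `c_i` are arbitrary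
rational numbers, and the exponent vectors `e_i` lie in `k` balls of radius `r` for the distance
`∑_j |e_j - e'_j|`: there are vectors `B_1, ..., B_k` such that every `e_i` is at distance at most
`r` from one of them (namely from `B_{g i}`). -/
def FewCl (k r n : ℕ) (F : MvPolynomial ℕ ℚ) : Prop :=
  ∃ (S : Finset ℕ) (a0 : Fin n → ℤ) (a : Fin n → ℕ → ℤ) (e : Fin n → Fin n → ℕ)
    (c : Fin n → ℚ) (B : Fin k → Fin n → ℕ) (g : Fin n → Fin k),
    S.card ≤ n ∧ (∀ j, (a0 j).natAbs ≤ 2 ^ n) ∧ (∀ j i, (a j i).natAbs ≤ 2 ^ n) ∧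
    (∀ i j, e i j ≤ 2 ^ n) ∧
    (∀ i, ∑ j, ((B (g i) j - e i j) + (e i j - B (g i) j)) ≤ r) ∧
    F = ∑ i, C (c i) * ∏ j, aff S (a0 j : ℚ) (fun l => (a j l : ℚ)) ^ e i j

/-- `f` divides, over the rational numbers, a product of `n` nonzero polynomials with
`FewCl k r n`, and no power `p ^ (n + 1)` of a prime number `p > n` divides all coefficients of
`f`. -/
def TameCl (k r n : ℕ) (f : MvPolynomial ℕ ℤ) : Prop :=
  (∀ p : ℕ, p.Prime → n < p → ¬ (C ((p : ℤ) ^ (n + 1)) ∣ f)) ∧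
    ∃ F : Fin n → MvPolynomial ℕ ℚ, (∀ a, F a ≠ 0 ∧ FewCl k r n (F a)) ∧
      map (Int.castRingHom ℚ) f ∣ ∏ a, F a

variable {k r n v : ℕ}

/-- Integer form of a nonzero polynomial with `FewCl`. -/
theorem FewCl.reduce {F : MvPolynomial ℕ ℚ} (hF0 : F ≠ 0) (hF : FewCl k r n F) :
    ∃ (S : Finset ℕ) (a0 : Fin n → ℤ) (a : Fin n → ℕ → ℤ) (e : Fin n → Fin n → ℕ)
      (c : Fin n → ℤ) (K κ : ℤ) (F' : MvPolynomial ℕ ℤ),
      S.card ≤ n ∧ (∀ j, (a0 j).natAbs ≤ 2 ^ n) ∧ (∀ j i, (a j i).natAbs ≤ 2 ^ n) ∧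
      (∀ j, Prim (aff S (a0 j) (a j))) ∧ (∀ i j, e i j ≤ 2 ^ n) ∧
      (∃ (B : Fin k → Fin n → ℕ) (g : Fin n → Fin k),
        ∀ i, ∑ j, ((B (g i) j - e i j) + (e i j - B (g i) j)) ≤ r) ∧
      K ≠ 0 ∧ κ ≠ 0 ∧ Prim F' ∧ C κ * F' = ∑ i, C (c i) * ∏ j, aff S (a0 j) (a j) ^ e i j ∧
      C (K : ℚ) * F = iQ (C κ * F') := by
  classical
  obtain ⟨S, b0, b, e, c, B, g, hS, hb0, hb, he, hcl, rfl⟩ := hF
  have hpp := fun j => aff_prim_part S (b0 j) (b j) (B := 2 ^ n) Nat.one_le_two_pow (hb0 j) (hb j)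
  choose κ a0 a hκ hprim ha0 ha using hpp
  have hex : ∀ i, ∃ z : ℤ, (z : ℚ) = ((∏ i, (c i).den : ℕ) : ℚ) * c i := by
    intro i
    refine ⟨((∏ i' ∈ Finset.univ.erase i, (c i').den : ℕ) : ℤ) * (c i).num, ?_⟩
    rw [← Finset.mul_prod_erase Finset.univ (fun i => (c i).den) (Finset.mem_univ i)]
    push_cast
    have h1 : ((c i).den : ℚ) * c i = (c i).num := by
      rw [mul_comm]; exact Rat.mul_den_eq_num (c i)
    rw [← h1]
    ring
  choose z hz using hex
  set K : ℕ := ∏ i, (c i).den with hK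
  have hK0 : (K : ℤ) ≠ 0 := by
    have : K ≠ 0 := Finset.prod_ne_zero_iff.2 fun i _ => (c i).den_nz
    exact_mod_cast this
  let Kc : Fin n → ℤ := fun i => ∏ j, κ j ^ e i j
  have hprod : ∀ i, ∏ j, aff S (b0 j) (b j) ^ e i j
      = C (Kc i) * ∏ j, aff S (a0 j) (a j) ^ e i j := by
    intro i
    simp only [Kc]
    rw [map_prod, ← Finset.prod_mul_distrib]
    refine Finset.prod_congr rfl fun j _ => ?_
    rw [hκ j, mul_pow, map_pow]
  have hterm : ∀ i, (∏ j, aff S (b0 j : ℚ) (fun l => (b j l : ℚ)) ^ e i j : MvPolynomial ℕ ℚ)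
      = iQ (∏ j, aff S (b0 j) (b j) ^ e i j) := by
    intro i
    rw [map_prod]
    refine Finset.prod_congr rfl fun j _ => ?_
    rw [map_pow, iQ_aff]
  set F0 : MvPolynomial ℕ ℤ := ∑ i, C (z i * Kc i) * ∏ j, aff S (a0 j) (a j) ^ e i j with hF0def
  have hrel : C ((K : ℤ) : ℚ) * (∑ i, C (c i) * ∏ j,
      aff S (b0 j : ℚ) (fun l => (b j l : ℚ)) ^ e i j) = iQ F0 := by
    rw [hF0def, map_sum, Finset.mul_sum]
    refine Finset.sum_congr rfl fun i _ => ?_
    rw [hterm, hprod, ← mul_assoc, ← C_mul]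
    have h1 : (((K : ℤ) : ℚ)) * c i = (z i : ℚ) := by rw [hz i]; push_cast; rfl
    rw [h1, map_mul, ← mul_assoc, iQ_C, ← C_mul, map_mul iQ (C (z i * Kc i)), iQ_C]
    push_cast
    rw [C_mul]
  have hF00 : F0 ≠ 0 := by
    intro h0
    rw [h0, map_zero] at hrel
    rcases mul_eq_zero.1 hrel with h | h
    · rw [C_eq_zero] at h
      exact hK0 (by exact_mod_cast h)
    · exact hF0 h
  obtain ⟨κ', F', hκ', hkF, hF'⟩ := exists_prim_part hF00
  exact ⟨S, a0, a, e, fun i => z i * Kc i, K, κ', F', hS, ha0, ha, hprim, he, ⟨B, g, hcl⟩, hK0,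
    hκ', hF', by rw [← hkF], by rw [hrel, hkF]⟩

/-- the powers of the indeterminate are linearly independent -/
theorem linInd_pow {F : Type*} [Field F] {σ : Type*} {idx : σ → ℕ}
    (hidx : Function.Injective idx) :
    LinearIndependent F (fun i : σ => (Polynomial.X : Polynomial F) ^ idx i) := by
  have h := (Polynomial.basisMonomials F).linearIndependent.comp idx hidx
  convert! h using 1
  funext i
  simp [Polynomial.X_pow_eq_monomial]

/-- the two forms of the generator -/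
theorem rename_Thq {σ : Type} [Fintype σ] (idx : σ → ℕ) (f : MvPolynomial σ ℚ) :
    rename (fun s : Fin (v + v) => Fin.addCases (motive := fun _ => ℕ ⊕ ℕ)
      (fun t : Fin v => Sum.inl t.1) (fun t : Fin v => Sum.inr t.1) s) (Thq v idx f) =
    ge (fun _ => 0) (fun i => (Polynomial.X : Polynomial ℚ) ^ idx i) v f := by
  have h : ((rename (fun s : Fin (v + v) => Fin.addCases (motive := fun _ => ℕ ⊕ ℕ)
      (fun t : Fin v => Sum.inl t.1) (fun t : Fin v => Sum.inr t.1) s)).comp (Thq v idx)) =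
      ge (fun _ => 0) (fun i => (Polynomial.X : Polynomial ℚ) ^ idx i) v := by
    apply algHom_ext
    intro i
    rw [AlgHom.comp_apply, ge_X, Thq, aeval_X, map_sum, gp, C_0, zero_add,
      ← Fin.sum_univ_eq_sum_range]
    refine Finset.sum_congr rfl fun t _ => ?_
    rw [map_mul, map_pow, rename_X, rename_X, Fin.addCases_left, Fin.addCases_right, map_pow,
      Polynomial.aeval_X]
  rw [← h, AlgHom.comp_apply]

/-- The substitution is injective on the span of the power products. -/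
theorem Cl_inj (S : Finset ℕ) (a0 : Fin n → ℤ) (a : Fin n → ℕ → ℤ) (e : Fin n → Fin n → ℕ)
    (hne : ∀ j, aff S (a0 j) (a j) ≠ 0) (B : Fin k → Fin n → ℕ) (g : Fin n → Fin k)
    (hcl : ∀ i, ∑ j, ((B (g i) j - e i j) + (e i j - B (g i) j)) ≤ r)
    (idx : ℕ → ℕ) (hidx : Set.InjOn idx S) (δ : Fin n → ℤ)
    (h : Th (Tn k r r) idx (∑ i, C (δ i) * ∏ j, aff S (a0 j) (a j) ^ e i j) = 0) :
    ∑ i, C (δ i) * ∏ j, aff S (a0 j) (a j) ^ e i j = 0 := by
  classical
  let T : Fin n → MvPolynomial S ℚ := fun i =>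
    ∏ j, H626R2.af (a0 j : ℚ) (fun l : S => (a j l : ℚ)) ^ e i j
  have hTr : ∀ i, rename Subtype.val (T i) = iQ (∏ j, aff S (a0 j) (a j) ^ e i j) := by
    intro i
    simp only [T]
    rw [map_prod, map_prod]
    refine Finset.prod_congr rfl fun j _ => ?_
    rw [map_pow, map_pow, rename_af S (a0 j : ℚ) (fun l => (a j l : ℚ)), iQ_aff]
  have hTm : ∀ i, Thq (Tn k r r) (fun l : S => idx l) (T i)
      = map (Int.castRingHom ℚ) (Th (Tn k r r) idx (∏ j, aff S (a0 j) (a j) ^ e i j)) := by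
    intro i
    simp only [T]
    rw [map_prod, map_prod, map_prod]
    refine Finset.prod_congr rfl fun j _ => ?_
    rw [map_pow, map_pow, map_pow, Thq_eq_map]
  have hidx' : Function.Injective (fun l : S => idx l) := fun x y hxy =>
    Subtype.ext (hidx x.2 y.2 hxy)
  have hne' : ∀ j, (H626R2.af (a0 j : ℚ) (fun l : S => (a j l : ℚ)) : MvPolynomial S ℚ) ≠ 0 := by
    intro j h0
    apply hne j
    have h1 := rename_af S (a0 j : ℚ) (fun l => (a j l : ℚ))
    rw [h0, map_zero, ← iQ_aff] at h1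
    exact iQ_inj (by rw [← h1, map_zero])
  have h0 : (∑ i, C (δ i : ℚ) * T i : MvPolynomial S ℚ) = 0 := by
    apply clusters_exps (fun _ => (0 : ℚ)) (linInd_pow hidx')
      (fun j => H626R2.af (a0 j : ℚ) (fun l : S => (a j l : ℚ))) (fun j => ⟨⟨_, _, rfl⟩, hne' j⟩)
      e g B hcl (fun i => (δ i : ℚ))
    rw [← rename_Thq]
    have h2 : ∀ i, Thq (Tn k r r) (fun l : S => idx l) (C (δ i : ℚ) * T i)
        = map (Int.castRingHom ℚ) (Th (Tn k r r) idx (C (δ i) *
          ∏ j, aff S (a0 j) (a j) ^ e i j)) := by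
      intro i
      rw [map_mul, hTm, algHom_C, algebraMap_eq, map_mul (Th (Tn k r r) idx), algHom_C,
        algebraMap_eq, map_mul, map_C]
      rfl
    have h3 : Thq (Tn k r r) (fun l : S => idx l) (∑ i, C (δ i : ℚ) * T i) = 0 := by
      rw [map_sum, Finset.sum_congr rfl fun i _ => h2 i, ← map_sum, ← map_sum, h, map_zero]
    have h4 : Thq (Tn k r r) (fun l : S => idx l) (∑ i, C (δ i : ℚ) * ∏ j,
        H626R2.af (a0 j : ℚ) (fun l : S => (a j l : ℚ)) ^ e i j) = 0 := h3
    rw [h4, map_zero]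
  apply iQ_inj
  rw [map_zero, map_sum]
  have h3 := congrArg (rename (Subtype.val : S → ℕ)) h0
  rw [map_zero, map_sum] at h3
  rw [← h3]
  refine Finset.sum_congr rfl fun i _ => ?_
  rw [map_mul, map_mul, hTr, rename_C, iQ_C]

end

end Pool.Agent.H626R2.Clu
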