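import Mathlib
import Pool.Agent.H626R2.Clu.Cl
import Pool.Agent.H626R2.PCore
import Pool.Agent.H531R2.Final

/-!
# The hitting set theorem for clusters of power products of affine forms, and the decision
procedure
-/

set_option autoImplicit false

namespace Pool.Agent.H626R2.Clu

open MvPolynomial Pool.Agent.H531R2 Pool.Agent.NPC

variable {k r n : ℕ}

/-- Tame polynomials in integer form. -/
theorem TameCl.reduce {f : MvPolynomial ℕ ℤ} (hf : TameCl k r n f) :
    ∃ (cf : ℤ) (f' : MvPolynomial ℕ ℤ) (S : Fin n → Finset ℕ) (a0 : Fin n → Fin n → ℤ)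
      (a : Fin n → Fin n → ℕ → ℤ) (e : Fin n → Fin n → Fin n → ℕ)
      (c : Fin n → Fin n → ℤ) (κ : Fin n → ℤ) (F' : Fin n → MvPolynomial ℕ ℤ),
      f = C cf * f' ∧ cf ≠ 0 ∧
      (∀ α, (S α).card ≤ n ∧ (∀ j, (a0 α j).natAbs ≤ 2 ^ n) ∧
        (∀ j i, (a α j i).natAbs ≤ 2 ^ n) ∧ (∀ j, Prim (aff (S α) (a0 α j) (a α j))) ∧
        (∀ i j, e α i j ≤ 2 ^ n) ∧
        (∃ (B : Fin k → Fin n → ℕ) (g : Fin n → Fin k),
          ∀ i, ∑ j, ((B (g i) j - e α i j) + (e α i j - B (g i) j)) ≤ r) ∧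
        κ α ≠ 0 ∧ Prim (F' α) ∧
        C (κ α) * F' α = ∑ i, C (c α i) * ∏ j, aff (S α) (a0 α j) (a α j) ^ e α i j) ∧
      f' ∣ ∏ α, F' α := by
  classical
  obtain ⟨hcont, F, hF, hfd⟩ := hf
  have hf0 : f ≠ 0 := by
    rintro rfl
    obtain ⟨p, hp1, hp2⟩ := Nat.exists_infinite_primes (n + 1)
    exact hcont p hp2 (by omega) (dvd_zero _)
  have hred := fun α => (hF α).2.reduce (hF α).1
  choose S a0 a e c K κ F' hS ha0 ha hprim he htr hK hκ hF' hrel hFe using hred
  obtain ⟨cf, f', hcf, hff, hf'⟩ := exists_prim_part hf0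
  refine ⟨cf, f', S, a0, a, e, c, κ, F', hff, hcf, fun α => ⟨hS α, ha0 α, ha α, hprim α, he α,
    htr α, hκ α, hF' α, hrel α⟩, ?_⟩
  set P := ∏ α, F' α with hP
  have h1 : iQ f ∣ iQ (C (∏ α, κ α) * P) := by
    have h2 : iQ (C (∏ α, κ α) * P) = (∏ α, C (K α : ℚ)) * ∏ α, F α := by
      rw [← Finset.prod_mul_distrib, hP, map_prod, ← Finset.prod_mul_distrib, map_prod]
      exact Finset.prod_congr rfl fun α _ => (hFe α).symm
    rw [h2]
    exact Dvd.dvd.mul_left hfd _
  obtain ⟨q, hq⟩ := h1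
  obtain ⟨J, q', hJ, hq'⟩ := clear_den q
  have h3 : f * q' = C (J * ∏ α, κ α) * P := by
    apply iQ_inj
    rw [map_mul, ← hq', C_mul, mul_assoc, map_mul, hq, iQ_C]
    ring
  have hk0 : J * ∏ α, κ α ≠ 0 := mul_ne_zero hJ (Finset.prod_ne_zero_iff.2 fun α _ => hκ α)
  have h4 : (C (J * ∏ α, κ α) : MvPolynomial ℕ ℤ) ∣ C cf * q' := by
    apply hf'.C_dvd hk0
    refine ⟨P, ?_⟩
    rw [← h3, hff]
    ring
  obtain ⟨q'', hq''⟩ := h4
  refine ⟨q'', ?_⟩
  have hC : (C (J * ∏ α, κ α) : MvPolynomial ℕ ℤ) ≠ 0 := by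
    rw [Ne, C_eq_zero]; exact hk0
  apply mul_left_cancel₀ hC
  rw [← h3, hff]
  linear_combination f' * hq''

theorem Tn_pos (k c δ : ℕ) : 1 ≤ Tn k c δ := by
  cases k with
  | zero => simp only [Tn]; omega
  | succ k => simp only [Tn]; omega

/-- The hitting set theorem. -/
theorem hit2 {f : MvPolynomial ℕ ℤ} (hf : TameCl k r n f) (V : Finset ℕ) (hV : f.vars ⊆ V)
    (idx : ℕ → ℕ) (hidx : Set.InjOn idx V) (m : ℕ) (hlt : ∀ j ∈ V, idx j < m) :
    ∀ p : ℕ, p.Prime → PP (Tn k r r) n m ≤ p →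
      ∃ a : Fin (Tn k r r + Tn k r r) → ℕ, (∀ t, a t < p ^ 2) ∧
        ¬ ((p : ℤ) ^ (Ex (Tn k r r) n m + 1) ∣
        eval (fun j => ∑ t : Fin (Tn k r r), (a (Fin.castAdd (Tn k r r) t) : ℤ) *
          (a (Fin.natAdd (Tn k r r) t) : ℤ) ^ idx j) f) := by
  classical
  have hcont := hf.1
  obtain ⟨cf, f', S, a0, a, e, c, κ, F', hff, hcf, hall, hfd⟩ := hf.reduce
  have hS := fun α => (hall α).1
  have ha0 := fun α => (hall α).2.1
  have ha := fun α => (hall α).2.2.1
  have hprim := fun α => (hall α).2.2.2.1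
  have he := fun α => (hall α).2.2.2.2.1
  have htr := fun α => (hall α).2.2.2.2.2.1
  have hκ := fun α => (hall α).2.2.2.2.2.2.1
  have hF' := fun α => (hall α).2.2.2.2.2.2.2.1
  have hrel := fun α => (hall α).2.2.2.2.2.2.2.2
  intro p hp hpP
  have hv1 : 1 ≤ Tn k r r := Tn_pos k r r
  set v := Tn k r r with hv
  -- numbering
  let W : Finset ℕ := Finset.univ.biUnion S
  have hW : W.card ≤ n * (v + n) := by
    refine Finset.card_biUnion_le.trans ?_
    refine (Finset.sum_le_card_nsmul Finset.univ _ (v + n) fun α _ =>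
      (hS α).trans (Nat.le_add_left _ _)).trans ?_
    simp
  obtain ⟨idx', hidxV, hidx', hlt'⟩ := exists_numbering V W idx hidx m hlt
  have hSW : ∀ α, ∀ j ∈ S α, j ∈ V ∪ W := by
    intro α j hj
    rw [Finset.mem_union]
    right
    rw [Finset.mem_biUnion]
    exact ⟨α, Finset.mem_univ _, hj⟩
  have hltm : ∀ α, ∀ j ∈ S α, idx' j < mm v n m := by
    intro α j hj
    have := hlt' _ (hSW α j hj)
    rw [mm]
    omega
  have hidxS : ∀ α, Set.InjOn idx' (S α) := fun α j hj j' hj' h =>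
    hidx' (hSW α j hj) (hSW α j' hj') h
  have hP2 : Ex v n m < p := by rw [PP] at hpP; omega
  have hP3 : n * n * HH v n m < p := by rw [PP] at hpP; omega
  have hP4 : n < p := by rw [PP] at hpP; omega
  -- the bases after the substitution
  set G : Fin n → Fin n → MvPolynomial (Fin (v + v)) ℤ :=
    fun α j => Th v idx' (aff (S α) (a0 α j) (a α j)) with hG
  have hGp : ∀ α j, Prim (G α j) := fun α j =>
    Prim_Th_aff hv1 idx' (S α) (hidxS α) _ _ (hprim α j)
  have hGd : ∀ α j, (G α j).totalDegree ≤ HH v n m := by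
    intro α j
    refine (totalDegree_Th_aff idx' _ _ _ (mm v n m) (hltm α)).trans ?_
    have hn0 : 0 < n := Fin.pos j
    rw [HH]
    refine le_trans ?_ (Nat.le_mul_of_pos_left _ hn0)
    omega
  have hGn : ∀ α j, nrm (G α j) ≤ 2 ^ HH v n m := by
    intro α j
    have hn0 : 0 < n := Fin.pos j
    refine (nrm_Th_aff idx' _ _ _ (2 ^ n) (ha0 α j) (ha α j)).trans ?_
    have h1 := form_bound v n (S α).card ((hS α).trans (Nat.le_add_left _ _))
    have h2 : 2 ^ n ≤ 2 ^ (2 * v + 2 * n + 1) := Nat.pow_le_pow_right (by norm_num) (by omega)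
    calc 2 ^ n + (S α).card * (2 ^ n * v)
        ≤ 2 ^ (2 * v + 2 * n + 1) + 2 ^ (2 * v + 2 * n + 1) := Nat.add_le_add h2 h1
      _ = 2 ^ (2 * v + 2 * n + 2) := by rw [← two_mul, ← pow_succ']
      _ ≤ 2 ^ HH v n m := by
        apply Nat.pow_le_pow_right (by norm_num)
        rw [HH]
        refine le_trans ?_ (Nat.le_mul_of_pos_left _ hn0)
        omega
  -- the first half of the point
  have hPr : Prim (∏ α, ∏ j, G α j) := Prim.prod _ _ fun α _ => Prim.prod _ _ fun j _ => hGp α j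
  have hPd : (∏ α, ∏ j, G α j).totalDegree ≤ n * n * HH v n m := by
    have h1 := totalDegree_prod_le Finset.univ (fun α => ∏ j, G α j) (n * HH v n m) (fun α _ => by
      have h2 := totalDegree_prod_le Finset.univ (G α) (HH v n m) (fun j _ => hGd α j)
      rwa [Finset.card_univ, Fintype.card_fin] at h2)
    rw [Finset.card_univ, Fintype.card_fin] at h1
    rw [mul_assoc]
    exact h1
  obtain ⟨s, hs, hsP⟩ := exists_point hp (hPr p hp) (d := n * n * HH v n m) (fun m' hm' => by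
    have h0 : coeff m' (∏ α, ∏ j, G α j) = 0 := by
      by_contra hne
      exact absurd (degree_le_totalDegree hne) (not_le.2 (lt_of_le_of_lt hPd hm'))
    rw [h0]
    exact dvd_zero _) hP3
  have hsg : ∀ α j, ¬ ((p : ℤ) ∣ eval (fun t => (s t : ℤ)) (G α j)) := by
    intro α j h
    apply hsP
    rw [map_prod]
    refine h.trans ?_
    refine dvd_trans ?_ (Finset.dvd_prod_of_mem _ (Finset.mem_univ α))
    rw [map_prod]
    exact Finset.dvd_prod_of_mem _ (Finset.mem_univ j)
  set s' : Fin (v + v) → ℤ := fun t => (s t : ℤ) with hs'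
  -- each factor
  have hn1 : n ≤ HH v n m := by
    rw [HH]
    exact Nat.le_mul_of_pos_right n (by omega)
  have hTprod : ∀ α i, Th v idx' (∏ j, aff (S α) (a0 α j) (a α j) ^ e α i j)
      = ∏ j, G α j ^ e α i j := by
    intro α i
    rw [map_prod]
    exact Finset.prod_congr rfl fun j _ => map_pow _ _ _
  have hThC : ∀ z : ℤ, Th v idx' (C z) = C z := by
    intro z
    rw [algHom_C, algebraMap_eq]
  have hFa : ∀ α, ¬ ((C (p : ℤ)) ^ (E1 (v + v) (HH v n m) + 1) ∣ Sig p s' (Th v idx' (F' α))) := by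
    intro α
    -- injectivity
    obtain ⟨B, gg, hBg⟩ := htr α
    have hinj : ∀ δ : Fin n → ℤ, Th v idx' (∑ i, C (δ i) *
        ∏ j, aff (S α) (a0 α j) (a α j) ^ e α i j) = 0 →
        ∑ i, C (δ i) * ∏ j, aff (S α) (a0 α j) (a α j) ^ e α i j = 0 := fun δ hδ =>
      Cl_inj (S α) (a0 α) (a α) (e α) (fun j => (hprim α j).ne_zero) B gg hBg idx' (hidxS α) δ hδ
    have hCκ : (C (κ α) : MvPolynomial ℕ ℤ) ≠ 0 := by rw [Ne, C_eq_zero]; exact hκ α
    refine core2 hp hn1 s' (G α) (e α) (c α)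
      (fun j => ⟨hGp α j, hGd α j, hGn α j⟩)
      (fun i j => (he α i j).trans (Nat.pow_le_pow_right (by norm_num) hn1)) _ ?_ ?_ (κ α) (hκ α) ?_
      (hsg α)
    · intro h0
      have h1 : Th v idx' (C (κ α) * F' α) = 0 := by rw [map_mul, h0, mul_zero]
      rw [hrel α] at h1
      have h2 := hinj _ h1
      rw [← hrel α] at h2
      rcases mul_eq_zero.1 h2 with h | h
      · exact hCκ h
      · exact (hF' α).ne_zero h
    · intro l γ β hl hγ
      have h1 : Th v idx' (∑ i, C (l * c α i - κ α * γ i) *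
          ∏ j, aff (S α) (a0 α j) (a α j) ^ e α i j) = 0 := by
        have h2 : ∀ i, Th v idx' (C (l * c α i - κ α * γ i) *
            ∏ j, aff (S α) (a0 α j) (a α j) ^ e α i j)
            = C l * (C (c α i) * ∏ j, G α j ^ e α i j) -
              C (κ α) * (C (γ i) * ∏ j, G α j ^ e α i j) := by
          intro i
          rw [map_mul, hTprod, hThC, C_sub, C_mul, C_mul]
          ring
        rw [map_sum, Finset.sum_congr rfl fun i _ => h2 i, Finset.sum_sub_distrib,
          ← Finset.mul_sum, ← Finset.mul_sum, ← hl]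
        have h3 := congrArg (Th v idx') (hrel α)
        rw [map_mul, hThC, map_sum] at h3
        have h4 : ∀ i, Th v idx' (C (c α i) * ∏ j, aff (S α) (a0 α j) (a α j) ^ e α i j)
            = C (c α i) * ∏ j, G α j ^ e α i j := by
          intro i
          rw [map_mul, hTprod, hThC]
        rw [Finset.sum_congr rfl fun i _ => h4 i] at h3
        rw [← h3]
        ring
      have h5 := hinj _ h1
      have h6 : C l * F' α = ∑ i, C (γ i) * ∏ j, aff (S α) (a0 α j) (a α j) ^ e α i j := by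
        apply mul_left_cancel₀ hCκ
        have h7 : C (κ α) * (C l * F' α) - C (κ α) *
            ∑ i, C (γ i) * ∏ j, aff (S α) (a0 α j) (a α j) ^ e α i j
            = ∑ i, C (l * c α i - κ α * γ i) *
              ∏ j, aff (S α) (a0 α j) (a α j) ^ e α i j := by
          have h8 : C (κ α) * (C l * F' α) = C l * (C (κ α) * F' α) := by ring
          rw [h8, hrel α, Finset.mul_sum, Finset.mul_sum, ← Finset.sum_sub_distrib]
          refine Finset.sum_congr rfl fun i _ => ?_
          rw [C_sub, C_mul, C_mul]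
          ring
        rw [h5] at h7
        exact sub_eq_zero.1 h7
      have h7 : (C ((p : ℤ) ^ β) : MvPolynomial ℕ ℤ) ∣ F' α * C l := by
        rw [mul_comm, h6]
        exact Finset.dvd_sum fun i _ => Dvd.dvd.mul_right (map_dvd C (hγ i)) _
      have h8 := (hF' α).C_dvd (pow_ne_zero _ (by exact_mod_cast hp.ne_zero)) h7
      rw [C_dvd_iff_dvd_coeff] at h8
      have h9 := h8 0
      rwa [coeff_zero_C] at h9
    · have h3 := congrArg (Th v idx') (hrel α)
      rw [map_mul, hThC, map_sum] at h3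
      rw [h3]
      refine Finset.sum_congr rfl fun i _ => ?_
      rw [map_mul, hTprod, hThC]
  have hprod := not_pow_dvd_prod hp Finset.univ
    (fun α => Sig p s' (Th v idx' (F' α))) (E1 (v + v) (HH v n m))
    (fun α _ => hFa α)
  rw [Finset.card_univ, Fintype.card_fin, ← map_prod, ← map_prod] at hprod
  have hSf' : ¬ ((C (p : ℤ)) ^ (n * E1 (v + v) (HH v n m) + 1) ∣ Sig p s' (Th v idx' f')) :=
    fun h => hprod (h.trans (map_dvd (Sig (p : ℤ) s') (map_dvd (Th v idx') hfd)))
  have hcfp : ¬ ((C (p : ℤ) : MvPolynomial (Fin (v + v)) ℤ) ^ (n + 1) ∣ C cf) := by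
    intro h
    rw [← C_pow] at h
    apply hcont p hp hP4
    rw [hff]
    exact Dvd.dvd.mul_right (map_dvd C (C_dvd_C h)) _
  have hSf : ¬ ((C (p : ℤ)) ^ (Ex v n m + 1) ∣ Sig p s' (Th v idx' f)) := by
    have h1 : Sig p s' (Th v idx' f) = C cf * Sig p s' (Th v idx' f') := by
      rw [hff, map_mul, map_mul, algHom_C, algebraMap_eq, algHom_C, algebraMap_eq]
    rw [h1]
    exact not_pow_dvd_mul hp hcfp hSf'
  obtain ⟨b, hb, hbf⟩ := exists_second hp hP2 s' (Th v idx' f) hSf
  refine ⟨fun t => s t + p * b t, fun t => ?_, ?_⟩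
  · have h1 := hs t
    have h2 := hb t
    have h3 : p * b t + p ≤ p * p := by
      calc p * b t + p = p * (b t + 1) := by ring
        _ ≤ p * p := Nat.mul_le_mul_left _ h2
    change s t + p * b t < p ^ 2
    rw [sq]
    omega
  · intro h
    apply hbf
    have h1 : eval (fun t => s' t + (p : ℤ) * (b t : ℤ)) (Th v idx' f)
        = eval (fun j => ∑ t : Fin v, ((s (Fin.castAdd v t) + p * b (Fin.castAdd v t) : ℕ) : ℤ) *
          ((s (Fin.natAdd v t) + p * b (Fin.natAdd v t) : ℕ) : ℤ) ^ idx j) f := by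
      have h2 : ((eval (fun t => s' t + (p : ℤ) * (b t : ℤ)) :
          MvPolynomial (Fin (v + v)) ℤ →+* ℤ).comp (Th v idx').toRingHom)
          = eval (fun j => ∑ t : Fin v, ((s (Fin.castAdd v t) + p * b (Fin.castAdd v t) : ℕ) : ℤ) *
          ((s (Fin.natAdd v t) + p * b (Fin.natAdd v t) : ℕ) : ℤ) ^ idx' j) := by
        apply MvPolynomial.ringHom_ext
        · intro z
          simp [Th]
        · intro j
          simp [Th, hs']
      have h3 : eval (fun t => s' t + (p : ℤ) * (b t : ℤ)) (Th v idx' f)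
          = eval (fun j => ∑ t : Fin v, ((s (Fin.castAdd v t) + p * b (Fin.castAdd v t) : ℕ) : ℤ) *
          ((s (Fin.natAdd v t) + p * b (Fin.natAdd v t) : ℕ) : ℤ) ^ idx' j) f := by
        rw [← h2]; rfl
      rw [h3]
      apply eval₂Hom_congr' rfl _ rfl
      intro j hj _
      rw [hidxV j (hV hj)]
    rw [h1]
    exact h

/-- The test rejects all circuits of tame polynomials. -/
theorem test_of_tameCl {m : ℕ} (P R : List ℕ) (C : List Gate) (hm : C.length ≤ m)
    (hP : ∀ p ≤ XX (Tn k r r) n m, p ∈ P) (hR : ∀ a < XX (Tn k r r) n m ^ 2, a ∈ R)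
    (hf : TameCl k r n (cpoly C)) : test (Tn k r r) P R (Ex (Tn k r r) n m + 1) C = false := by
  have hΔp := hit2 hf (cvars C) (vars_cpoly C) (Pool.Agent.H531R2.idx C) (idx_injOn C) m
    (fun j hj => (idx_lt hj).trans_le hm)
  obtain ⟨p, hp, -, hpm, hpX⟩ := prime_choice (PP (Tn k r r) n m) (DD (Tn k r r) n) 1 one_ne_zero
    Nat.one_le_two_pow
  obtain ⟨a, ha, had⟩ := hΔp p hp hpm
  by_contra h
  rw [Bool.not_eq_false, test, Bool.and_eq_true, List.all_eq_true] at h
  have hpX' : p ≤ XX (Tn k r r) n m := hpX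
  have h1 := h.2 (p - 2) (hP _ (by omega))
  rw [List.all_eq_true] at h1
  have hpR : ∀ z < p ^ 2, z ∈ R := fun z hz =>
    hR z (lt_of_lt_of_le hz (Nat.pow_le_pow_left hpX' 2))
  have h2 := h1 (List.ofFn fun t : Fin (Tn k r r) => (a (Fin.castAdd (Tn k r r) t),
      a (Fin.natAdd (Tn k r r) t))) (by
    rw [mem_pts]
    refine ⟨by simp, ?_⟩
    intro z hz
    rw [List.mem_ofFn] at hz
    obtain ⟨t, rfl⟩ := hz
    rw [mem_prs]
    exact ⟨hpR _ (ha _), hpR _ (ha _)⟩)
  rw [decide_eq_true_eq, nlast_eq_zero_iff] at h2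
  apply had
  have h3 : p - 2 + 2 = p := Nat.sub_add_cancel hp.two_le
  have h4 : p ^ (Ex (Tn k r r) n m + 1) - 1 + 1 = p ^ (Ex (Tn k r r) n m + 1) :=
    Nat.sub_add_cancel (Nat.one_le_pow _ _ hp.pos)
  rw [h3, h4] at h2
  have h5 : (fun j => ∑ t : Fin (Tn k r r), (a (Fin.castAdd (Tn k r r) t) : ℤ) *
      (a (Fin.natAdd (Tn k r r) t) : ℤ) ^ Pool.Agent.H531R2.idx C j)
      = pt C (List.ofFn fun t : Fin (Tn k r r) => (a (Fin.castAdd (Tn k r r) t),
        a (Fin.natAdd (Tn k r r) t))) := by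
    funext j
    rw [pt_ofFn]
  rw [h5]
  exact_mod_cast h2

/-- The main theorem. -/
theorem main_theoremCl (k r c : ℕ) : ∃ A : List Bool → List Bool, PolyTime A ∧
    (∀ x, A x = [true] ∨ A x = [false]) ∧
    (∀ x ∈ ACIT, A x = [true]) ∧
    (∀ x, (∀ C : List Gate, WF C → bits C ≠ x) → A x = [false]) ∧
    ∀ C : List Gate, TameCl k r ((bits C).length ^ c) (cpoly C) → A (bits C) = [false] := by
  refine ⟨fun x => [alg (Tn k r r) c x], polyTime_of_poly (poly_alg (Tn k r r) c), ?_, ?_, ?_, ?_⟩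
  · intro x
    cases h : alg (Tn k r r) c x
    · right; simp [h]
    · left; simp [h]
  · rintro x ⟨C, rfl, hC, h0⟩
    simp only [alg, unbits_bits, Option.elim]
    rw [test_of_zero (Tn k r r) _ _ _ C hC h0]
  · intro x hx
    simp only [alg]
    cases h : unbits (List Gate) x with
    | none => rfl
    | some C =>
      have h1 : ¬ WF C := fun hC => hx C hC (bits_of_unbits h)
      simp only [Option.elim]
      rw [← wfB_iff, Bool.not_eq_true] at h1
      rw [test, h1, Bool.false_and]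
  · intro C hC
    simp only [alg, unbits_bits, Option.elim]
    rw [test_of_tameCl _ _ C (m := (bits C).length) ?_ ?_ ?_ hC]
    · rw [bits_length]
      exact (length_lt_sz C).le
    · intro p hp
      rw [List.mem_range]
      omega
    · intro a ha
      rw [List.mem_range]
      exact ha

end Pool.Agent.H626R2.Clu
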